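import Pool.Agent.R433.SL.EquiN
import Pool.Agent.Y837.SV.Crit3

/-! Record gaps around all the minors of the parametrised matrices, in boxes. -/

set_option autoImplicit false
set_option linter.unusedSectionVars false

namespace Pool.Agent.R433.SL

open Finset Matrix MvPolynomial

/-- the proper minors -/
def Idx (m : ℕ) : Type :=
  Σ k : Fin m, {a : (Fin (k : ℕ) → Fin m) × (Fin (k : ℕ) → Fin m) //
    0 < (k : ℕ) ∧ StrictMono a.1 ∧ StrictMono a.2}

noncomputable instance (m : ℕ) : Fintype (Idx m) := by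
  classical
  unfold Idx
  infer_instance

section

variable {m d q : ℕ} {C : ℝ} {P : Matrix (Fin m) (Fin m) (MvPolynomial (Fin d) ℤ)}

/-- the polynomial of an index -/
noncomputable def polI (P : Matrix (Fin m) (Fin m) (MvPolynomial (Fin d) ℤ)) (j : Idx m) :
    MvPolynomial (Fin d) ℤ := pol P j.2.1.1 j.2.1.2

theorem rpow_one (p : ℕ) (hp : 0 < p) {x C₁ D : ℝ} (h : x * p ≤ C₁ * D) :
    x ≤ C₁ * D * (p : ℝ) ^ (-(1 : ℝ)) := by
  have hp0 : (0 : ℝ) < p := by exact_mod_cast hp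
  rw [Real.rpow_neg_one, ← div_eq_mul_inv, le_div_iff₀ hp0]
  exact h

theorem main_box (hC : 0 ≤ C) (hU : UnifN P q C)
    (hz : ∀ j : Idx m, ZeroBd j.2.1.1 j.2.1.2)
    (hpb : ∀ i j : Idx m, i ≠ j → PairBd i.2.1.1 i.2.1.2 j.2.1.1 j.2.1.2) :
    ∃ c : ℝ, 0 < c ∧ ∃ Z₀ : ℝ, ∀ Z : ℕ, Z₀ ≤ Z → ∀ M : Fin d → ℤ, ∃ x : Fin d → ℤ,
      (∀ i, M i < x i ∧ x i ≤ M i + Z) ∧ ∀ j : Idx m, ∀ n : ℤ,
        |(n : ℝ) - eval x (polI P j)| ≤ c * Pool.Agent.H256R2.SC.ff Z →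
        ∃ p : ℕ, p.Prime ∧ (p : ℝ) ≤ (Z : ℝ) ^ (1 / 10 : ℝ) ∧ (p : ℤ) ∣ n := by
  classical
  have h1 : ∀ j : Idx m, ∃ C₁ : ℝ, 0 ≤ C₁ ∧ ∃ B : ℕ, ∀ (p : ℕ) [Fact p.Prime], B < p →
      ∀ r : ZMod p, r ≠ 0 →
      |(p : ℝ) * ((univ.filter fun x : Fin d → ZMod p => aeval x (polI P j) = r).card : ℝ) -
        (p : ℝ) ^ d| * p ≤ C₁ * (p : ℝ) ^ d := fun j =>
    single_UN hC hU j.2.2.1 j.1.2 _ _ j.2.2.2.1.injective (hz j)
  have h2 : ∀ i j : Idx m, ∃ C₁ : ℝ, 0 ≤ C₁ ∧ ∃ B : ℕ, i ≠ j → ∀ (p : ℕ) [Fact p.Prime], B < p →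
      ∀ r s : ZMod p, r ≠ 0 → s ≠ 0 →
      (p : ℝ) ^ 2 * ((univ.filter fun x : Fin d → ZMod p => aeval x (polI P i) = r ∧
        aeval x (polI P j) = s).card : ℝ) ≤ C₁ * (p : ℝ) ^ d := by
    intro i j
    by_cases hij : i = j
    · exact ⟨0, le_rfl, 0, fun h => absurd hij h⟩
    · obtain ⟨C₁, hC₁, B, h⟩ := pair_UN hC hU (hpb i j hij)
      exact ⟨C₁, hC₁, B, fun _ => h⟩
  choose C₁ hC₁ B₁ hB₁ using h1
  choose C₂ hC₂ B₂ hB₂ using h2
  obtain ⟨K, hK⟩ : ∃ K : ℝ, K = ∑ j, C₁ j + ∑ i, ∑ j, C₂ i j := ⟨_, rfl⟩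
  obtain ⟨B₀, hB₀⟩ : ∃ B₀ : ℕ, B₀ = ∑ j, B₁ j + ∑ i, ∑ j, B₂ i j := ⟨_, rfl⟩
  have hs1 : 0 ≤ ∑ j, C₁ j := Finset.sum_nonneg fun j _ => hC₁ j
  have hs2 : 0 ≤ ∑ i, ∑ j, C₂ i j :=
    Finset.sum_nonneg fun i _ => Finset.sum_nonneg fun j _ => hC₂ i j
  have hK1 : ∀ j, C₁ j ≤ K := by
    intro j
    have := Finset.single_le_sum (f := C₁) (fun j _ => hC₁ j) (mem_univ j)
    rw [hK]
    linarith
  have hK2 : ∀ i j, C₂ i j ≤ K := by
    intro i j
    have a4 := Finset.single_le_sum (f := fun j => C₂ i j) (fun j _ => hC₂ i j) (mem_univ j)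
    have a5 := Finset.single_le_sum (f := fun i => ∑ j, C₂ i j)
      (fun i _ => Finset.sum_nonneg fun j _ => hC₂ i j) (mem_univ i)
    rw [hK]
    linarith
  have hb1 : ∀ j, B₁ j ≤ B₀ := by
    intro j
    have := Finset.single_le_sum (f := B₁) (fun j _ => Nat.zero_le _) (mem_univ j)
    rw [hB₀]
    omega
  have hb2 : ∀ i j, B₂ i j ≤ B₀ := by
    intro i j
    have a4 := Finset.single_le_sum (f := fun j => B₂ i j) (fun j _ => Nat.zero_le _) (mem_univ j)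
    have a5 := Finset.single_le_sum (f := fun i => ∑ j, B₂ i j)
      (fun i _ => Nat.zero_le _) (mem_univ i)
    rw [hB₀]
    omega
  refine Pool.Agent.Y837.SV.crit3 d (polI P) ?_ (fun _ => {0}) ?_ B₀ K 1 one_pos ?_ ?_
  · intro j c
    exact not_constN hC hU j.2.2.1 j.1.2 _ _ j.2.2.2.1.injective j.2.2.2.2.injective c
  · intro j r hr B
    rw [mem_singleton] at hr
    rw [hr]
    exact zerosN hC hU j.2.2.1 j.1.2 _ _ B
  · intro p hp hBp j r hr
    have : Fact p.Prime := ⟨hp⟩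
    have hr0 : r ≠ 0 := by
      have := hr 0 (mem_singleton_self _)
      simpa using this
    have h3 := hB₁ j p (lt_of_le_of_lt (hb1 j) hBp) r hr0
    rw [Nat.card_eq_fintype_card, Fintype.card_subtype]
    refine rpow_one p hp.pos (le_trans ?_ (h3.trans ?_))
    · exact le_of_eq (by congr!)
    · exact mul_le_mul_of_nonneg_right (hK1 j) (by positivity)
  · intro p hp hBp i j hij r s hr hs
    have : Fact p.Prime := ⟨hp⟩
    have hr0 : r ≠ 0 := by
      have := hr 0 (mem_singleton_self _)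
      simpa using this
    have hs0 : s ≠ 0 := by
      have := hs 0 (mem_singleton_self _)
      simpa using this
    have h3 := hB₂ i j hij p (lt_of_le_of_lt (hb2 i j) hBp) r s hr0 hs0
    rw [Nat.card_eq_fintype_card, Fintype.card_subtype]
    refine le_trans ?_ (h3.trans ?_)
    · exact le_of_eq (by congr!)
    · exact mul_le_mul_of_nonneg_right (hK2 i j) (by positivity)

theorem idx_ne {i j : Idx m} (hij : i ≠ j) : ¬ ∃ h : (i.1 : ℕ) = j.1,
    (i.2.1.1 = fun a => j.2.1.1 (Fin.cast h a)) ∧ (i.2.1.2 = fun a => j.2.1.2 (Fin.cast h a)) := by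
  rintro ⟨hk, hf, hg⟩
  apply hij
  obtain ⟨⟨k, hkm⟩, ⟨⟨f, g⟩, hfg⟩⟩ := i
  obtain ⟨⟨k', hkm'⟩, ⟨⟨f', g'⟩, hfg'⟩⟩ := j
  simp only at hk hf hg
  subst hk
  have hf' : f = f' := hf
  have hg' : g = g' := hg
  subst hf' hg'
  rfl

/-- the parametrisation for a nonzero determinant -/
theorem paramN (n q : ℕ) (hq : 0 < q) (A₀ : Matrix (Fin (n + 1)) (Fin (n + 1)) ℤ)
    (hA₀ : A₀.det ≠ 0) :
    ∃ (d : ℕ) (P : Matrix (Fin (n + 1)) (Fin (n + 1)) (MvPolynomial (Fin d) ℤ)) (C : ℝ) (q' : ℕ),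
      0 ≤ C ∧ (∀ x : Fin d → ℤ, (P.map (eval x)).det = A₀.det) ∧
      (∀ x : Fin d → ℤ, ∀ i j, (q : ℤ) ∣ eval x (P i j) - A₀ i j) ∧ UnifN P q' C ∧
      (∀ j : Idx (n + 1), ZeroBd j.2.1.1 j.2.1.2) ∧
      (∀ i j : Idx (n + 1), i ≠ j → PairBd i.2.1.1 i.2.1.2 j.2.1.1 j.2.1.2) := by
  obtain ⟨d, Y, C, hC, hdet, hmod, hLow⟩ := param n q hq 1
  have hU : Unif Y hdet q C := fun p _ hp => hLow p hp _ (fun _ => rfl)
  have hmap : ∀ {R : Type} [CommRing R] (x : Fin d → R),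
      (A₀.map (MvPolynomial.C : ℤ → MvPolynomial (Fin d) ℤ) * Y).map (aeval x) =
        A₀.map (Int.castRingHom R) * Y.map (aeval x) := by
    intro R _ x
    obtain ⟨φ, hφ⟩ : ∃ φ : MvPolynomial (Fin d) ℤ →+* R, ∀ F, φ F = aeval x F :=
      ⟨(aeval x : MvPolynomial (Fin d) ℤ →ₐ[ℤ] R).toRingHom, fun _ => rfl⟩
    have e1 : ∀ M : Matrix (Fin (n + 1)) (Fin (n + 1)) (MvPolynomial (Fin d) ℤ),
        M.map (aeval x) = M.map φ := by
      intro M
      ext i j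
      rw [Matrix.map_apply, Matrix.map_apply, hφ]
    have e2 : (A₀.map (MvPolynomial.C : ℤ → MvPolynomial (Fin d) ℤ)).map φ =
        A₀.map (Int.castRingHom R) := by
      ext i j
      rw [Matrix.map_apply, Matrix.map_apply, Matrix.map_apply, hφ, aeval_C]
      rfl
    rw [e1, e1, Matrix.map_mul, e2]
  refine ⟨d, A₀.map MvPolynomial.C * Y, C, q + A₀.det.natAbs, hC, ?_, ?_, ?_, ?_, ?_⟩
  · intro x
    have h1 := hmap x
    have e1 : ∀ M : Matrix (Fin (n + 1)) (Fin (n + 1)) (MvPolynomial (Fin d) ℤ),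
        M.map (eval x) = M.map (aeval x) := fun M => by
      ext i j
      rfl
    rw [e1, h1, det_mul]
    have e2 : A₀.map (Int.castRingHom ℤ) = A₀ := by
      ext i j
      simp
    have e3 : (Y.map (aeval x)).det = 1 := (sp Y hdet x).2
    rw [e2, e3, mul_one]
  · intro x i j
    have h1 : eval x ((A₀.map (MvPolynomial.C : ℤ → MvPolynomial (Fin d) ℤ) * Y) i j) =
        ∑ k, A₀ i k * eval x (Y k j) := by
      rw [Matrix.mul_apply, map_sum]
      refine Finset.sum_congr rfl fun k _ => ?_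
      rw [map_mul, Matrix.map_apply, eval_C]
    have h2 : A₀ i j = ∑ k, A₀ i k * (1 : Matrix (Fin (n + 1)) (Fin (n + 1)) ℤ) k j := by
      rw [← Matrix.mul_apply, Matrix.mul_one]
    rw [h1]
    conv_rhs => rw [h2]
    rw [← Finset.sum_sub_distrib]
    refine Finset.dvd_sum fun k _ => ?_
    rw [← mul_sub]
    exact (hmod x k j).mul_left _
  · intro p hp hqp
    have hN0 : ((A₀.det : ℤ) : ZMod p) ≠ 0 := by
      intro h
      rw [ZMod.intCast_zmod_eq_zero_iff_dvd] at h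
      have h1 := Int.natAbs_dvd_natAbs.2 h
      rw [Int.natAbs_natCast] at h1
      have h2 := Nat.le_of_dvd (Int.natAbs_pos.2 hA₀) h1
      omega
    let δ : Fin (n + 1) → ZMod p := fun i => if i = 0 then ((A₀.det : ℤ) : ZMod p) else 1
    have hδ : ∀ i, δ i ≠ 0 := by
      intro i
      by_cases h : i = 0
      · simp only [δ, if_pos h]
        exact hN0
      · simp only [δ, if_neg h]
        exact one_ne_zero
    have hprod : ∏ i, δ i = ((A₀.det : ℤ) : ZMod p) := by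
      rw [Finset.prod_eq_single 0 (fun i _ hi => if_neg hi) (fun h => absurd (mem_univ _) h)]
      exact if_pos rfl
    let g₀ : SpecialLinearGroup (Fin (n + 1)) (ZMod p) :=
      ⟨diagonal (fun i => (δ i)⁻¹) * A₀.map (Int.castRingHom (ZMod p)), by
        rw [det_mul, det_diagonal, Finset.prod_inv_distrib, hprod]
        have e : (A₀.map (Int.castRingHom (ZMod p))).det = ((A₀.det : ℤ) : ZMod p) :=
          (RingHom.map_det (Int.castRingHom (ZMod p)) A₀).symm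
        rw [e, inv_mul_cancel₀ hN0]⟩
    refine ⟨δ, hδ, fun x => g₀ * sp Y hdet x, ?_, ?_⟩
    · intro x
      rw [hmap x]
      change A₀.map (Int.castRingHom (ZMod p)) * Y.map (aeval x) =
        diagonal δ * ((diagonal (fun i => (δ i)⁻¹) * A₀.map (Int.castRingHom (ZMod p))) *
          Y.map (aeval x))
      rw [← Matrix.mul_assoc, ← Matrix.mul_assoc, diagonal_mul_diagonal]
      have e : (fun i => δ i * (δ i)⁻¹) = fun _ => (1 : ZMod p) := by
        funext i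
        exact mul_inv_cancel₀ (hδ i)
      rw [e, diagonal_one, Matrix.one_mul]
    · refine low_target (Equiv.mulLeft g₀⁻¹) ?_
      have hfin : (fun x => (Equiv.mulLeft g₀⁻¹) (g₀ * sp Y hdet x)) =
          fun x : Fin d → ZMod p => sp Y hdet x := by
        funext x
        exact inv_mul_cancel_left g₀ (sp Y hdet x)
      rw [hfin]
      exact hU p (by omega)
  · intro j
    exact zero_G hC hU j.1.2 _ _ j.2.2.2.1.injective j.2.2.2.2.injective
  · intro i j hij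
    exact pairBd hC hU i.2.2.1 i.1.2 j.2.2.1 j.1.2 _ _ _ _ i.2.2.2.1 i.2.2.2.2 j.2.2.2.1
      j.2.2.2.2 (idx_ne hij)

end

end Pool.Agent.R433.SL
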