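import Mathlib

/-! Numbers of elements of the special linear group with given minors. -/

set_option autoImplicit false
set_option linter.unusedSectionVars false

namespace Pool.Agent.R433.SL

open Finset Matrix

section generic

variable {G F : Type} [Fintype G] [DecidableEq G] [Field F] [Fintype F] [DecidableEq F]

open scoped Classical in
theorem scal_le (φ : G → F) (P : G → Prop) (D : Fˣ → G → G) (hD : ∀ l, Function.Injective (D l))
    (hφ : ∀ l x, φ (D l x) = l * φ x) (hP : ∀ l x, P x → P (D l x)) (r : F) (hr : r ≠ 0) :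
    (Fintype.card F - 1) * (univ.filter fun x => φ x = r ∧ P x).card ≤ (univ.filter P).card := by
  rw [← Fintype.card_units, ← Finset.card_univ, ← Finset.card_product]
  refine Finset.card_le_card_of_injOn (fun a : Fˣ × G => D a.1 a.2) ?_ ?_
  · intro a ha
    rw [Finset.mem_coe, mem_product, mem_filter] at ha
    rw [Finset.mem_coe, mem_filter]
    exact ⟨mem_univ _, hP _ _ ha.2.2.2⟩
  · intro a ha b hb hab
    rw [Finset.mem_coe, mem_product, mem_filter] at ha hb
    simp only at hab
    have h1 := hφ a.1 a.2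
    have h2 := hφ b.1 b.2
    rw [hab, h2, ha.2.2.1, hb.2.2.1] at h1
    have h3 : b.1 = a.1 := Units.ext (mul_right_cancel₀ hr h1)
    rw [← h3] at hab
    exact Prod.ext h3.symm (hD _ hab)

open scoped Classical in
theorem scal_ge (φ : G → F) (D : Fˣ → G → G) (hD : ∀ l, Function.Injective (D l))
    (hφ : ∀ l x, φ (D l x) = l * φ x) (r : F) (hr : r ≠ 0) :
    Fintype.card G ≤ (univ.filter fun x => φ x = 0).card +
      (Fintype.card F - 1) * (univ.filter fun x => φ x = r).card := by
  have h1 : Fintype.card G = ∑ y : F, (univ.filter fun x => φ x = y).card := by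
    rw [← Finset.card_univ]
    exact Finset.card_eq_sum_card_fiberwise (f := φ) (s := (univ : Finset G))
      (t := (univ : Finset F)) (fun _ _ => mem_univ _)
  rw [h1, ← Finset.add_sum_erase (univ : Finset F) _ (mem_univ (0 : F))]
  apply Nat.add_le_add_left
  have h2 : ∀ y ∈ (univ : Finset F).erase 0, (univ.filter fun x => φ x = y).card ≤
      (univ.filter fun x => φ x = r).card := by
    intro y hy
    have hy0 : y ≠ 0 := (mem_erase.1 hy).1
    refine Finset.card_le_card_of_injOn (D (Units.mk0 (r / y) (div_ne_zero hr hy0))) ?_ ?_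
    · intro x hx
      rw [Finset.mem_coe, mem_filter] at hx ⊢
      refine ⟨mem_univ _, ?_⟩
      rw [hφ, hx.2, Units.val_mk0, div_mul_cancel₀ _ hy0]
    · exact (hD _).injOn
  refine (Finset.sum_le_sum h2).trans ?_
  rw [Finset.sum_const, Finset.card_erase_of_mem (mem_univ _), Finset.card_univ, smul_eq_mul]

open scoped Classical in
theorem uni_le (φ Q : G → F) (P : G → Prop) (U : F → G → G) (hU : ∀ t, Function.Injective (U t))
    (hφ : ∀ t x, φ (U t x) = φ x + t * Q x) (hQ : ∀ t x, Q (U t x) = Q x)
    (hP : ∀ t x, P x → P (U t x)) (r : F) :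
    Fintype.card F * (univ.filter fun x => φ x = r ∧ Q x ≠ 0 ∧ P x).card ≤
      (univ.filter P).card := by
  rw [← Finset.card_univ, ← Finset.card_product]
  refine Finset.card_le_card_of_injOn (fun a : F × G => U a.1 a.2) ?_ ?_
  · intro a ha
    rw [Finset.mem_coe, mem_product, mem_filter] at ha
    rw [Finset.mem_coe, mem_filter]
    exact ⟨mem_univ _, hP _ _ ha.2.2.2.2⟩
  · intro a ha b hb hab
    rw [Finset.mem_coe, mem_product, mem_filter] at ha hb
    simp only at hab
    have h1 := hφ a.1 a.2
    have h2 := hφ b.1 b.2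
    have h3 := hQ a.1 a.2
    have h4 := hQ b.1 b.2
    rw [hab, h4] at h3
    rw [hab, h2, ha.2.2.1, hb.2.2.1, h3] at h1
    have h5 : b.1 = a.1 := mul_right_cancel₀ ha.2.2.2.1 (add_left_cancel h1)
    rw [← h5] at hab
    exact Prod.ext h5.symm (hU _ hab)

end generic

section minors

variable {m k k' : ℕ} {F : Type} [Field F] [Fintype F] [DecidableEq F]

/-- a minor -/
def mi {k m : ℕ} {R : Type} [CommRing R] (f g : Fin k → Fin m) (A : SpecialLinearGroup (Fin m) R) : R :=
  (A.1.submatrix f g).det

/-- an element of the torus -/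
def tor (a b : Fin m) (hab : a ≠ b) (l : Fˣ) : SpecialLinearGroup (Fin m) F :=
  ⟨diagonal fun x => if x = a then (l : F) else if x = b then (l⁻¹ : Fˣ) else 1, by
    rw [det_diagonal, ← Finset.mul_prod_erase univ _ (mem_univ a), if_pos rfl,
      ← Finset.mul_prod_erase (univ.erase a) _ (mem_erase.2 ⟨hab.symm, mem_univ b⟩),
      if_neg hab.symm, if_pos rfl, Finset.prod_eq_one, mul_one, Units.mul_inv]
    intro x hx
    rw [mem_erase, mem_erase] at hx
    rw [if_neg hx.2.1, if_neg hx.1]⟩

/-- an elementary matrix -/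
def tra (a b : Fin m) (hab : a ≠ b) (t : F) : SpecialLinearGroup (Fin m) F :=
  ⟨transvection a b t, det_transvection_of_ne a b hab t⟩

theorem mi_tor (a b : Fin m) (hab : a ≠ b) (l : Fˣ) (f g : Fin k → Fin m)
    (A : SpecialLinearGroup (Fin m) F) :
    mi f g (tor a b hab l * A) =
      (∏ i, if f i = a then (l : F) else if f i = b then (l⁻¹ : Fˣ) else 1) * mi f g A := by
  rw [mi, mi, ← det_mul_column]
  congr 1
  ext i j
  change ((diagonal fun x => if x = a then (l : F) else if x = b then ((l⁻¹ : Fˣ) : F) else 1) * A.1)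
    (f i) (g j) = _
  rw [diagonal_mul]
  rfl

theorem mi_tor_in (a b : Fin m) (hab : a ≠ b) (l : Fˣ) (f g : Fin k → Fin m)
    (hf : Function.Injective f) (i₀ : Fin k) (ha : f i₀ = a) (hb : ∀ i, f i ≠ b)
    (A : SpecialLinearGroup (Fin m) F) : mi f g (tor a b hab l * A) = l * mi f g A := by
  rw [mi_tor]
  congr 1
  rw [Finset.prod_eq_single i₀ (fun i _ hi => ?_) (fun h => absurd (mem_univ _) h), if_pos ha]
  rw [if_neg (fun h => hi (hf (h.trans ha.symm))), if_neg (hb i)]

theorem mi_tor_out (a b : Fin m) (hab : a ≠ b) (l : Fˣ) (f g : Fin k → Fin m)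
    (hf : Function.Injective f) (i₀ : Fin k) (hb : f i₀ = b) (ha : ∀ i, f i ≠ a)
    (A : SpecialLinearGroup (Fin m) F) :
    mi f g (tor a b hab l * A) = ((l⁻¹ : Fˣ) : F) * mi f g A := by
  rw [mi_tor]
  congr 1
  rw [Finset.prod_eq_single i₀ (fun i _ hi => ?_) (fun h => absurd (mem_univ _) h),
    if_neg (ha i₀), if_pos hb]
  rw [if_neg (ha i), if_neg (fun h => hi (hf (h.trans hb.symm)))]

theorem tra_apply (a b : Fin m) (hab : a ≠ b) (t : F) (A : SpecialLinearGroup (Fin m) F)
    (i j : Fin m) : (tra a b hab t * A).1 i j = A.1 i j + if i = a then t * A.1 b j else 0 := by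
  change (transvection a b t * A.1) i j = _
  by_cases h : i = a
  · rw [if_pos h, h, transvection_mul_apply_same]
  · rw [if_neg h, transvection_mul_apply_of_ne _ _ _ _ h, add_zero]

theorem mi_tra_out (a b : Fin m) (hab : a ≠ b) (t : F) (f g : Fin k → Fin m) (ha : ∀ i, f i ≠ a)
    (A : SpecialLinearGroup (Fin m) F) : mi f g (tra a b hab t * A) = mi f g A := by
  rw [mi, mi]
  congr 1
  ext i j
  rw [submatrix_apply, submatrix_apply, tra_apply, if_neg (ha i), add_zero]

theorem mi_tra_in (a b : Fin m) (hab : a ≠ b) (t : F) (f g : Fin k → Fin m)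
    (hf : Function.Injective f) (i₀ : Fin k) (ha : f i₀ = a) (A : SpecialLinearGroup (Fin m) F) :
    mi f g (tra a b hab t * A) = mi f g A + t * mi (Function.update f i₀ b) g A := by
  have h1 : (tra a b hab t * A).1.submatrix f g =
      updateRow (A.1.submatrix f g) i₀ ((fun j => A.1 a (g j)) + t • fun j => A.1 b (g j)) := by
    ext i j
    rw [submatrix_apply, tra_apply]
    by_cases h : i = i₀
    · rw [h, updateRow_self, if_pos ha, ha]
      simp
    · rw [updateRow_ne h, if_neg (fun h' => h (hf (h'.trans ha.symm))), add_zero, submatrix_apply]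
  have h2 : updateRow (A.1.submatrix f g) i₀ (fun j => A.1 a (g j)) = A.1.submatrix f g := by
    ext i j
    by_cases h : i = i₀
    · rw [h, updateRow_self, submatrix_apply, ha]
    · rw [updateRow_ne h]
  have h3 : updateRow (A.1.submatrix f g) i₀ (fun j => A.1 b (g j)) =
      A.1.submatrix (Function.update f i₀ b) g := by
    ext i j
    by_cases h : i = i₀
    · rw [h, updateRow_self, submatrix_apply, Function.update_self]
    · rw [updateRow_ne h, submatrix_apply, submatrix_apply, Function.update_of_ne h]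
  rw [mi, h1, det_updateRow_add, det_updateRow_smul, h2, h3]
  rfl

theorem exists_notin (f : Fin k → Fin m) (hk : k < m) : ∃ b, ∀ i, f i ≠ b := by
  by_contra h
  push Not at h
  have hs : Function.Surjective f := h
  have := Fintype.card_le_of_surjective f hs
  simp at this
  omega

/-- one minor -/
theorem single_le (hk0 : 0 < k) (hk : k < m) (f g : Fin k → Fin m) (hf : Function.Injective f)
    (r : F) (hr : r ≠ 0) : (Fintype.card F - 1) *
      (univ.filter fun A : SpecialLinearGroup (Fin m) F => mi f g A = r).card ≤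
        Fintype.card (SpecialLinearGroup (Fin m) F) := by
  classical
  obtain ⟨b, hb⟩ := exists_notin f hk
  have h := scal_le (fun A : SpecialLinearGroup (Fin m) F => mi f g A) (fun _ => True)
    (fun l A => tor (f ⟨0, hk0⟩) b (hb _) l * A) (fun l => mul_right_injective _)
    (fun l A => mi_tor_in _ _ _ l f g hf _ rfl hb A) (fun _ _ _ => trivial) r hr
  simp only [and_true, Finset.filter_true, Finset.card_univ] at h
  convert h

theorem single_ge (hk0 : 0 < k) (hk : k < m) (f g : Fin k → Fin m) (hf : Function.Injective f)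
    (r : F) (hr : r ≠ 0) : Fintype.card (SpecialLinearGroup (Fin m) F) ≤
      (univ.filter fun A : SpecialLinearGroup (Fin m) F => mi f g A = 0).card +
      (Fintype.card F - 1) *
        (univ.filter fun A : SpecialLinearGroup (Fin m) F => mi f g A = r).card := by
  classical
  obtain ⟨b, hb⟩ := exists_notin f hk
  have h := scal_ge (fun A : SpecialLinearGroup (Fin m) F => mi f g A)
    (fun l A => tor (f ⟨0, hk0⟩) b (hb _) l * A) (fun l => mul_right_injective _)
    (fun l A => mi_tor_in _ _ _ l f g hf _ rfl hb A) r hr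
  convert h

/-- two minors with different rows -/
theorem pair_rows (hk : k < m) (hk0' : 0 < k') (hk' : k' < m)
    (f g : Fin k → Fin m) (f' g' : Fin k' → Fin m) (hf : Function.Injective f)
    (hf' : Function.Injective f') (i₀ : Fin k) (hi₀ : ∀ i, f' i ≠ f i₀)
    (r s : F) (hr : r ≠ 0) (hs : s ≠ 0) (K : ℕ)
    (hK : ∀ b, (∀ i, f i ≠ b) → Fintype.card F * (univ.filter fun A : SpecialLinearGroup (Fin m) F =>
      mi (Function.update f i₀ b) g A = 0).card ≤ K * Fintype.card (SpecialLinearGroup (Fin m) F)) :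
    Fintype.card F * (Fintype.card F - 1) *
      (univ.filter fun A : SpecialLinearGroup (Fin m) F => mi f g A = r ∧ mi f' g' A = s).card ≤
        (K + 1) * Fintype.card (SpecialLinearGroup (Fin m) F) := by
  classical
  obtain ⟨b, hb⟩ := exists_notin f hk
  have hab : f i₀ ≠ b := hb i₀
  set f₁ : Fin k → Fin m := Function.update f i₀ b with hf₁
  have hf₁a : ∀ i, f₁ i ≠ f i₀ := by
    intro i
    rw [hf₁]
    by_cases h : i = i₀
    · rw [h, Function.update_self]
      exact hab.symm
    · rw [Function.update_of_ne h]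
      exact fun h' => h (hf h')
  have hf₁b : f₁ i₀ = b := by rw [hf₁, Function.update_self]
  have hf₁i : Function.Injective f₁ := by
    intro i j hij
    by_cases hi : i = i₀
    · by_cases hj : j = i₀
      · rw [hi, hj]
      · rw [hi, hf₁b, hf₁, Function.update_of_ne hj] at hij
        exact absurd hij.symm (hb j)
    · by_cases hj : j = i₀
      · rw [hj, hf₁b, hf₁, Function.update_of_ne hi] at hij
        exact absurd hij (hb i)
      · rw [hf₁, Function.update_of_ne hi, Function.update_of_ne hj] at hij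
        exact hf hij
  -- the part with `Q ≠ 0`
  have h1 := uni_le (fun A : SpecialLinearGroup (Fin m) F => mi f g A)
    (fun A => mi f₁ g A) (fun A => mi f' g' A = s) (fun t A => tra (f i₀) b hab t * A)
    (fun t => mul_right_injective _) (fun t A => mi_tra_in _ _ _ t f g hf i₀ rfl A)
    (fun t A => mi_tra_out _ _ _ t f₁ g hf₁a A)
    (fun t A hA => by
      rw [mi_tra_out _ _ _ t f' g' hi₀ A, hA]) r
  have h2 := single_le hk0' hk' f' g' hf' s hs
  -- the part with `Q = 0`
  have h3 := scal_le (fun A : SpecialLinearGroup (Fin m) F => mi f g A)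
    (fun A => mi f₁ g A = 0) (fun l A => tor (f i₀) b hab l * A)
    (fun l => mul_right_injective _) (fun l A => mi_tor_in _ _ _ l f g hf i₀ rfl hb A)
    (fun l A hA => by
      rw [mi_tor_out _ _ _ l f₁ g hf₁i i₀ hf₁b hf₁a A, hA, mul_zero]) r hr
  have h4 := hK b hb
  have h5 : (univ.filter fun A : SpecialLinearGroup (Fin m) F => mi f g A = r ∧ mi f' g' A = s).card ≤
      (univ.filter fun A : SpecialLinearGroup (Fin m) F =>
        mi f g A = r ∧ mi f₁ g A ≠ 0 ∧ mi f' g' A = s).card +
      (univ.filter fun A : SpecialLinearGroup (Fin m) F => mi f g A = r ∧ mi f₁ g A = 0).card := by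
    refine le_trans (Finset.card_le_card ?_) (Finset.card_union_le _ _)
    intro A hA
    rw [mem_filter] at hA
    rw [mem_union, mem_filter, mem_filter]
    by_cases h : mi f₁ g A = 0
    · exact Or.inr ⟨mem_univ _, hA.2.1, h⟩
    · exact Or.inl ⟨mem_univ _, hA.2.1, h, hA.2.2⟩
  set q := Fintype.card F with hq
  set n₁ := (univ.filter fun A : SpecialLinearGroup (Fin m) F =>
        mi f g A = r ∧ mi f₁ g A ≠ 0 ∧ mi f' g' A = s).card with hn₁
  set n₂ := (univ.filter fun A : SpecialLinearGroup (Fin m) F => mi f g A = r ∧ mi f₁ g A = 0).card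
    with hn₂
  set n₃ := (univ.filter fun A : SpecialLinearGroup (Fin m) F => mi f' g' A = s).card with hn₃
  set n₄ := (univ.filter fun A : SpecialLinearGroup (Fin m) F => mi f₁ g A = 0).card with hn₄
  have h1' : q * n₁ ≤ n₃ := by
    rw [hn₁, hn₃]
    convert h1
  have h3' : (q - 1) * n₂ ≤ n₄ := by
    rw [hn₂, hn₄]
    convert h3
  calc q * (q - 1) * (univ.filter fun A : SpecialLinearGroup (Fin m) F =>
        mi f g A = r ∧ mi f' g' A = s).card ≤ q * (q - 1) * (n₁ + n₂) := Nat.mul_le_mul_left _ h5
    _ = (q - 1) * (q * n₁) + q * ((q - 1) * n₂) := by ring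
    _ ≤ (q - 1) * n₃ + q * n₄ := Nat.add_le_add (Nat.mul_le_mul_left _ h1') (Nat.mul_le_mul_left _ h3')
    _ ≤ Fintype.card (SpecialLinearGroup (Fin m) F) +
        K * Fintype.card (SpecialLinearGroup (Fin m) F) := Nat.add_le_add h2 h4
    _ = _ := by ring

/-- the transpose -/
theorem mi_transpose (f g : Fin k → Fin m) (A : SpecialLinearGroup (Fin m) F) :
    mi f g A.transpose = mi g f A := by
  rw [mi, mi, ← det_transpose (A.1.submatrix g f)]
  rfl

/-- an element with a given nonzero minor -/
theorem exists_mi (hk : k < m) (f g : Fin k → Fin m) (hf : Function.Injective f)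
    (hg : Function.Injective g) : ∃ A : SpecialLinearGroup (Fin m) F, mi f g A ≠ 0 := by
  classical
  obtain ⟨b, hb⟩ := exists_notin f hk
  let e : {x // x ∈ Set.range f} ≃ {x // x ∈ Set.range g} :=
    (Equiv.ofInjective f hf).symm.trans (Equiv.ofInjective g hg)
  let τ : Equiv.Perm (Fin m) := e.extendSubtype
  have hτ : ∀ i, τ (f i) = g i := by
    intro i
    have h1 : τ (f i) = e ⟨f i, ⟨i, rfl⟩⟩ := Equiv.extendSubtype_apply_of_mem e (f i) ⟨i, rfl⟩
    rw [h1]
    change ((Equiv.ofInjective g hg) ((Equiv.ofInjective f hf).symm ⟨f i, ⟨i, rfl⟩⟩) : Fin m) = g i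
    have h2 : (Equiv.ofInjective f hf).symm ⟨f i, ⟨i, rfl⟩⟩ = i := by
      rw [Equiv.symm_apply_eq]
      rfl
    rw [h2]
    rfl
  let s : Fin m → F := fun x => if x = b then ((Equiv.Perm.sign τ : ℤ) : F) else 1
  refine ⟨⟨diagonal s * (τ.toPEquiv.toMatrix : Matrix (Fin m) (Fin m) F), ?_⟩, ?_⟩
  · rw [det_mul, det_diagonal, det_permutation]
    have h1 : ∏ x, s x = ((Equiv.Perm.sign τ : ℤ) : F) := by
      rw [Finset.prod_eq_single b (fun x _ hx => if_neg hx) (fun h => absurd (mem_univ _) h)]
      exact if_pos rfl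
    rw [h1, ← Int.cast_mul]
    have h2 : ((Equiv.Perm.sign τ : ℤ) * (Equiv.Perm.sign τ : ℤ)) = 1 := by
      rw [← Units.val_mul, Int.units_mul_self]
      rfl
    rw [h2, Int.cast_one]
  · have h1 : mi f g (⟨diagonal s * (τ.toPEquiv.toMatrix : Matrix (Fin m) (Fin m) F), by
        rw [det_mul, det_diagonal, det_permutation]
        have h1 : ∏ x, s x = ((Equiv.Perm.sign τ : ℤ) : F) := by
          rw [Finset.prod_eq_single b (fun x _ hx => if_neg hx) (fun h => absurd (mem_univ _) h)]
          exact if_pos rfl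
        rw [h1, ← Int.cast_mul]
        have h2 : ((Equiv.Perm.sign τ : ℤ) * (Equiv.Perm.sign τ : ℤ)) = 1 := by
          rw [← Units.val_mul, Int.units_mul_self]
          rfl
        rw [h2, Int.cast_one]⟩ : SpecialLinearGroup (Fin m) F) = 1 := by
      have h3 : (diagonal s * (τ.toPEquiv.toMatrix : Matrix (Fin m) (Fin m) F)).submatrix f g = 1 := by
        ext i j
        rw [submatrix_apply, diagonal_mul, PEquiv.toMatrix_apply]
        have h4 : s (f i) = 1 := if_neg (hb i)
        rw [h4, one_mul, Matrix.one_apply]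
        have h5 : (g j ∈ τ.toPEquiv (f i)) ↔ i = j := by
          rw [Equiv.toPEquiv_apply, Option.mem_some_iff, hτ]
          exact hg.eq_iff
        exact if_congr h5 rfl rfl
      change ((diagonal s * (τ.toPEquiv.toMatrix : Matrix (Fin m) (Fin m) F)).submatrix f g).det = 1
      rw [h3, det_one]
    intro h2
    rw [h2] at h1
    exact zero_ne_one h1

end minors

end Pool.Agent.R433.SL
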