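import Pool.Agent.R433.SL.Good
import Pool.Agent.R433.SL.Minors

/-! The minors of the parametrised matrices are equidistributed modulo the primes. -/

set_option autoImplicit false
set_option linter.unusedSectionVars false

namespace Pool.Agent.R433.SL

open Finset Matrix MvPolynomial

/-- the number of zeros modulo `p` -/
theorem zero_bd {p d : ℕ} [Fact p.Prime] (F : MvPolynomial (Fin d) ℤ) (u : Fin d → ℤ)
    (hu : ¬ (p : ℤ) ∣ eval u F) :
    (univ.filter (fun x : Fin d → ZMod p => aeval x F = 0)).card * p ≤ F.totalDegree * p ^ d := by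
  classical
  have hp := (Fact.out : p.Prime)
  set G : MvPolynomial (Fin d) (ZMod p) := map (Int.castRingHom (ZMod p)) F with hG
  have hGe : ∀ x : Fin d → ZMod p, eval x G = aeval x F := by
    intro x
    rw [hG, eval_map, aeval_def]
    rfl
  have hG0 : G ≠ 0 := by
    intro h
    have h1 : aeval (fun i => ((u i : ℤ) : ZMod p)) F = 0 := by
      rw [← hGe, h, map_zero]
    have h2 : (Int.castRingHom (ZMod p)) (eval u F) = aeval (fun i => ((u i : ℤ) : ZMod p)) F := by
      rw [aeval_def, eval, coe_eval₂Hom, hom_eval₂]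
      congr 1
    rw [h1] at h2
    have h3 : ((eval u F : ℤ) : ZMod p) = 0 := h2
    rw [ZMod.intCast_zmod_eq_zero_iff_dvd] at h3
    exact hu h3
  have hdeg : G.totalDegree ≤ F.totalDegree := by
    rw [hG]
    exact Finset.sup_mono (support_map_subset _ _)
  have h1 := schwartz_zippel_totalDegree hG0 (univ : Finset (ZMod p))
  rw [card_univ, ZMod.card] at h1
  have h2 : (Fintype.piFinset (fun _ : Fin d => (univ : Finset (ZMod p)))).filter
      (fun f => eval f G = 0) = univ.filter (fun x : Fin d → ZMod p => aeval x F = 0) := by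
    ext x
    simp [hGe]
  have hpQ : (0 : ℚ≥0) < p := by exact_mod_cast hp.pos
  rw [div_le_div_iff₀ (by positivity) hpQ] at h1
  have h3 : (((Fintype.piFinset (fun _ : Fin d => (univ : Finset (ZMod p)))).filter
      (fun f => eval f G = 0)).card) * p ≤ G.totalDegree * p ^ d := by
    exact_mod_cast h1
  rw [h2] at h3
  exact h3.trans (Nat.mul_le_mul_right _ hdeg)

section

variable {m d q : ℕ} {C : ℝ} (P : Matrix (Fin m) (Fin m) (MvPolynomial (Fin d) ℤ))
  (hdet : P.det = 1)

/-- a minor as a polynomial -/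
noncomputable def pol {k : ℕ} (f g : Fin k → Fin m) : MvPolynomial (Fin d) ℤ :=
  (P.submatrix f g).det

theorem aeval_pol {R : Type} [CommRing R] {k : ℕ} (f g : Fin k → Fin m) (x : Fin d → R) :
    aeval x (pol P f g) = mi f g (sp P hdet x) :=
  AlgHom.map_det (aeval x : MvPolynomial (Fin d) ℤ →ₐ[ℤ] R) (P.submatrix f g)

/-- the uniformity assumption -/
def Unif (q : ℕ) (C : ℝ) : Prop := ∀ (p : ℕ) [Fact p.Prime], q < p →
  Low (fun x : Fin d → ZMod p => sp P hdet x) (C / p ^ 2)

variable {P hdet}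

theorem eps_small (hC : 0 ≤ C) {p : ℕ} (hp : (2 * C + 1 : ℝ) ≤ p) : C / (p : ℝ) ^ 2 ≤ 1 / 2 := by
  have hp1 : (1 : ℝ) ≤ p := by linarith
  rw [div_le_iff₀ (by positivity)]
  nlinarith

theorem surj (hC : 0 ≤ C) (hU : Unif P hdet q C) {p : ℕ} [Fact p.Prime] (hq : q < p)
    (hp : (2 * C + 1 : ℝ) ≤ p) (A : SpecialLinearGroup (Fin m) (ZMod p)) :
    ∃ x : Fin d → ZMod p, sp P hdet x = A := by
  classical
  have h := hU p hq A
  have h1 := eps_small hC hp
  have h2 : (0 : ℝ) < Fintype.card (Fin d → ZMod p) := by exact_mod_cast Fintype.card_pos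
  by_contra hcon
  push Not at hcon
  have h3 : ∀ inst : DecidablePred fun x : Fin d → ZMod p => sp P hdet x = A,
      @Finset.filter _ (fun x : Fin d → ZMod p => sp P hdet x = A) inst univ = ∅ := fun inst =>
    Finset.filter_false_of_mem fun x _ => hcon x
  rw [h3, Finset.card_empty, Nat.cast_zero, mul_zero] at h
  nlinarith

theorem pol_ne (hC : 0 ≤ C) (hU : Unif P hdet q C) {k : ℕ} (hk : k < m) (f g : Fin k → Fin m)
    (hf : Function.Injective f) (hg : Function.Injective g) : pol P f g ≠ 0 := by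
  obtain ⟨p, hp1, hp2⟩ := Nat.exists_infinite_primes (q + 1 + ⌈2 * C + 1⌉₊)
  have : Fact p.Prime := ⟨hp2⟩
  obtain ⟨A, hA⟩ := exists_mi (F := ZMod p) hk f g hf hg
  obtain ⟨x, hx⟩ := surj hC hU (by omega) ((Nat.le_ceil _).trans (by exact_mod_cast (by omega))) A
  intro h
  apply hA
  rw [← hx, ← aeval_pol P hdet, h, map_zero]

/-- the number of elements with a vanishing minor -/
theorem zero_G (hC : 0 ≤ C) (hU : Unif P hdet q C) {k : ℕ} (hk : k < m) (f g : Fin k → Fin m)
    (hf : Function.Injective f) (hg : Function.Injective g) :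
    ∃ K B : ℕ, ∀ (p : ℕ) [Fact p.Prime], B < p →
      p * (univ.filter fun A : SpecialLinearGroup (Fin m) (ZMod p) => mi f g A = 0).card ≤
        K * Fintype.card (SpecialLinearGroup (Fin m) (ZMod p)) := by
  classical
  obtain ⟨u, hu⟩ : ∃ u : Fin d → ℤ, eval u (pol P f g) ≠ 0 := by
    by_contra hcon
    push Not at hcon
    exact pol_ne hC hU hk f g hf hg (MvPolynomial.funext fun x => by rw [hcon x, map_zero])
  refine ⟨2 * (pol P f g).totalDegree, q + ⌈2 * C + 1⌉₊ + (eval u (pol P f g)).natAbs, ?_⟩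
  intro p hp hB
  have hpp := (Fact.out : p.Prime)
  have hup : ¬ (p : ℤ) ∣ eval u (pol P f g) := by
    intro h
    have h1 := Int.natAbs_dvd_natAbs.2 h
    rw [Int.natAbs_natCast] at h1
    have h2 := Nat.le_of_dvd (Int.natAbs_pos.2 hu) h1
    omega
  have h1 := zero_bd (pol P f g) u hup
  have hpC : (2 * C + 1 : ℝ) ≤ p := (Nat.le_ceil _).trans (by exact_mod_cast (by omega))
  have hε := eps_small hC hpC
  have h2 := low_count (hU p (by omega)) (fun A => mi f g A = 0)
  have h3 : ∀ inst : DecidablePred fun x : Fin d → ZMod p => mi f g (sp P hdet x) = 0,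
      @Finset.filter _ (fun x : Fin d → ZMod p => mi f g (sp P hdet x) = 0) inst univ =
      univ.filter (fun x : Fin d → ZMod p => aeval x (pol P f g) = 0) := fun inst => by
    ext x
    rw [mem_filter, mem_filter, aeval_pol P hdet]
  rw [h3, Fintype.card_fun, ZMod.card, Fintype.card_fin] at h2
  set n₀ : ℝ := ((univ.filter fun A : SpecialLinearGroup (Fin m) (ZMod p) => mi f g A = 0).card : ℝ)
    with hn₀
  have hn : ∀ inst : DecidablePred fun A : SpecialLinearGroup (Fin m) (ZMod p) => mi f g A = 0,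
      ((@Finset.filter _ (fun A : SpecialLinearGroup (Fin m) (ZMod p) => mi f g A = 0) inst
        univ).card : ℝ) = n₀ := fun inst => by
    rw [hn₀]
    congr!
  rw [hn] at h2
  set Z : ℝ := ((univ.filter (fun x : Fin d → ZMod p => aeval x (pol P f g) = 0)).card : ℝ) with hZ
  have h1' : Z * p ≤ (pol P f g).totalDegree * (p : ℝ) ^ d := by
    rw [hZ]
    exact_mod_cast h1
  set g₀ : ℝ := (Fintype.card (SpecialLinearGroup (Fin m) (ZMod p)) : ℝ) with hg₀
  have hg00 : 0 ≤ g₀ := Nat.cast_nonneg _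
  have hn00 : 0 ≤ n₀ := Nat.cast_nonneg _
  have hp0 : (0 : ℝ) < p := by exact_mod_cast hpp.pos
  have hpd : (0 : ℝ) < (p : ℝ) ^ d := by positivity
  push_cast at h2
  have h4 : (p : ℝ) * n₀ * (p : ℝ) ^ d ≤ 2 * (pol P f g).totalDegree * g₀ * (p : ℝ) ^ d := by
    have e1 : 1 / 2 * n₀ * (p : ℝ) ^ d ≤ (1 - C / (p : ℝ) ^ 2) * n₀ * (p : ℝ) ^ d := by
      apply mul_le_mul_of_nonneg_right _ hpd.le
      apply mul_le_mul_of_nonneg_right _ hn00
      linarith
    have e2 : 1 / 2 * n₀ * (p : ℝ) ^ d ≤ g₀ * Z := e1.trans h2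
    have e3 : g₀ * (Z * p) ≤ g₀ * ((pol P f g).totalDegree * (p : ℝ) ^ d) :=
      mul_le_mul_of_nonneg_left h1' hg00
    have e4 : p * (1 / 2 * n₀ * (p : ℝ) ^ d) ≤ p * (g₀ * Z) := mul_le_mul_of_nonneg_left e2 hp0.le
    nlinarith
  have h5 := le_of_mul_le_mul_right h4 hpd
  rw [hn₀, hg₀] at h5
  exact_mod_cast h5

/-- some row of the first minor is not a row of the second -/
def Diff {k k' : ℕ} (f : Fin k → Fin m) (f' : Fin k' → Fin m) : Prop := ∃ i₀, ∀ i, f' i ≠ f i₀

/-- pair bound -/
def PairBd {k k' : ℕ} (f g : Fin k → Fin m) (f' g' : Fin k' → Fin m) : Prop :=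
  ∃ K B : ℕ, ∀ (p : ℕ) [Fact p.Prime], B < p → ∀ r s : ZMod p, r ≠ 0 → s ≠ 0 →
    p * (p - 1) * (univ.filter fun A : SpecialLinearGroup (Fin m) (ZMod p) =>
      mi f g A = r ∧ mi f' g' A = s).card ≤ K * Fintype.card (SpecialLinearGroup (Fin m) (ZMod p))

theorem PairBd.swap {k k' : ℕ} {f g : Fin k → Fin m} {f' g' : Fin k' → Fin m}
    (h : PairBd f g f' g') : PairBd f' g' f g := by
  obtain ⟨K, B, h⟩ := h
  refine ⟨K, B, fun p _ hp r s hr hs => ?_⟩
  have h1 := h p hp s r hs hr
  have h2 : (univ.filter fun A : SpecialLinearGroup (Fin m) (ZMod p) =>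
      mi f' g' A = r ∧ mi f g A = s) = (univ.filter fun A : SpecialLinearGroup (Fin m) (ZMod p) =>
      mi f g A = s ∧ mi f' g' A = r) := Finset.filter_congr fun A _ => and_comm
  rw [h2]
  exact h1

theorem PairBd.transpose {k k' : ℕ} {f g : Fin k → Fin m} {f' g' : Fin k' → Fin m}
    (h : PairBd g f g' f') : PairBd f g f' g' := by
  obtain ⟨K, B, h⟩ := h
  refine ⟨K, B, fun p _ hp r s hr hs => ?_⟩
  have h1 := h p hp r s hr hs
  have h2 : (univ.filter fun A : SpecialLinearGroup (Fin m) (ZMod p) =>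
      mi f g A = r ∧ mi f' g' A = s).card ≤ (univ.filter fun A : SpecialLinearGroup (Fin m) (ZMod p) =>
      mi g f A = r ∧ mi g' f' A = s).card := by
    refine Finset.card_le_card_of_injOn (fun A => A.transpose) ?_ ?_
    · intro A hA
      rw [Finset.mem_coe, mem_filter] at hA ⊢
      rw [mi_transpose, mi_transpose]
      exact ⟨mem_univ _, hA.2⟩
    · intro A _ B _ hAB
      have h3 : A.1.transpose = B.1.transpose := congrArg Subtype.val hAB
      exact Subtype.ext (Matrix.transpose_injective h3)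
  exact (Nat.mul_le_mul_left _ h2).trans h1

theorem pairBd_rows (hC : 0 ≤ C) (hU : Unif P hdet q C) {k k' : ℕ} (hk : k < m)
    (hk0' : 0 < k') (hk' : k' < m) (f g : Fin k → Fin m) (f' g' : Fin k' → Fin m)
    (hf : Function.Injective f) (hg : Function.Injective g) (hf' : Function.Injective f')
    (hd : Diff f f') : PairBd f g f' g' := by
  classical
  obtain ⟨i₀, hi₀⟩ := hd
  have hfb : ∀ b, (∀ i, f i ≠ b) → Function.Injective (Function.update f i₀ b) := by
    intro b hb i j hij
    by_cases hi : i = i₀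
    · by_cases hj : j = i₀
      · rw [hi, hj]
      · rw [hi, Function.update_self, Function.update_of_ne hj] at hij
        exact absurd hij.symm (hb j)
    · by_cases hj : j = i₀
      · rw [hj, Function.update_self, Function.update_of_ne hi] at hij
        exact absurd hij (hb i)
      · rw [Function.update_of_ne hi, Function.update_of_ne hj] at hij
        exact hf hij
  have hex : ∀ b : Fin m, ∃ K B : ℕ, (∀ i, f i ≠ b) → ∀ (p : ℕ) [Fact p.Prime], B < p →
      p * (univ.filter fun A : SpecialLinearGroup (Fin m) (ZMod p) =>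
        mi (Function.update f i₀ b) g A = 0).card ≤
        K * Fintype.card (SpecialLinearGroup (Fin m) (ZMod p)) := by
    intro b
    by_cases hb : ∀ i, f i ≠ b
    · obtain ⟨K, B, h⟩ := zero_G hC hU hk (Function.update f i₀ b) g (hfb b hb) hg
      exact ⟨K, B, fun _ => h⟩
    · exact ⟨0, 0, fun h => absurd h hb⟩
  choose K B hKB using hex
  refine ⟨(∑ b, K b) + 1, ∑ b, B b, ?_⟩
  intro p hp hBp r s hr hs
  have h := pair_rows hk hk0' hk' f g f' g' hf hf' i₀ hi₀ r s hr hs (∑ b, K b) (fun b hb => by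
    have h1 := hKB b hb p (lt_of_le_of_lt (Finset.single_le_sum (f := B)
      (fun _ _ => Nat.zero_le _) (mem_univ b)) hBp)
    rw [ZMod.card]
    exact h1.trans (Nat.mul_le_mul_right _ (Finset.single_le_sum (f := K)
      (fun _ _ => Nat.zero_le _) (mem_univ b))))
  rw [ZMod.card] at h
  exact h

/-- different minors have different row sets or different column sets -/
theorem diff_of_ne {k k' : ℕ} {f g : Fin k → Fin m} {f' g' : Fin k' → Fin m}
    (hf : StrictMono f) (hg : StrictMono g) (hf' : StrictMono f') (hg' : StrictMono g')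
    (h1 : ¬ Diff f f') (h2 : ¬ Diff f' f) (h3 : ¬ Diff g g') (h4 : ¬ Diff g' g) :
    ∃ h : k = k', (f = fun i => f' (Fin.cast h i)) ∧ (g = fun i => g' (Fin.cast h i)) := by
  have hr : Set.range f = Set.range f' := by
    apply Set.Subset.antisymm
    · rintro _ ⟨i, rfl⟩
      by_contra hcon
      exact h1 ⟨i, fun j hj => hcon ⟨j, hj⟩⟩
    · rintro _ ⟨i, rfl⟩
      by_contra hcon
      exact h2 ⟨i, fun j hj => hcon ⟨j, hj⟩⟩
  have hr' : Set.range g = Set.range g' := by
    apply Set.Subset.antisymm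
    · rintro _ ⟨i, rfl⟩
      by_contra hcon
      exact h3 ⟨i, fun j hj => hcon ⟨j, hj⟩⟩
    · rintro _ ⟨i, rfl⟩
      by_contra hcon
      exact h4 ⟨i, fun j hj => hcon ⟨j, hj⟩⟩
  have hk : k = k' := by
    have e1 := Set.card_range_of_injective hf.injective
    have e2 := Set.card_range_of_injective hf'.injective
    have e3 : Nat.card (Set.range f) = k := by
      rw [Nat.card_range_of_injective hf.injective, Nat.card_fin]
    have e4 : Nat.card (Set.range f') = k' := by
      rw [Nat.card_range_of_injective hf'.injective, Nat.card_fin]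
    rw [← e3, ← e4, hr]
  subst hk
  refine ⟨rfl, ?_, ?_⟩
  · exact (StrictMono.range_inj hf hf').1 hr
  · exact (StrictMono.range_inj hg hg').1 hr'

theorem pairBd (hC : 0 ≤ C) (hU : Unif P hdet q C) {k k' : ℕ} (hk0 : 0 < k) (hk : k < m)
    (hk0' : 0 < k') (hk' : k' < m) (f g : Fin k → Fin m) (f' g' : Fin k' → Fin m)
    (hf : StrictMono f) (hg : StrictMono g) (hf' : StrictMono f') (hg' : StrictMono g')
    (hne : ¬ ∃ h : k = k', (f = fun i => f' (Fin.cast h i)) ∧ (g = fun i => g' (Fin.cast h i))) :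
    PairBd f g f' g' := by
  by_cases h1 : Diff f f'
  · exact pairBd_rows hC hU hk hk0' hk' f g f' g' hf.injective hg.injective hf'.injective h1
  by_cases h2 : Diff f' f
  · exact (pairBd_rows hC hU hk' hk0 hk f' g' f g hf'.injective hg'.injective hf.injective h2).swap
  by_cases h3 : Diff g g'
  · exact (pairBd_rows hC hU hk hk0' hk' g f g' f' hg.injective hf.injective hg'.injective
      h3).transpose
  by_cases h4 : Diff g' g
  · exact (pairBd_rows hC hU hk' hk0 hk g' f' g f hg'.injective hf'.injective hg.injective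
      h4).swap.transpose
  exact absurd (diff_of_ne hf hg hf' hg' h1 h2 h3 h4) hne

end

end Pool.Agent.R433.SL
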