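import Pool.Agent.R433.SL.Count

/-! Equidistribution modulo the primes of the minors of the parametrised matrices. -/

set_option autoImplicit false
set_option linter.unusedSectionVars false

namespace Pool.Agent.R433.SL

open Finset Matrix MvPolynomial

/-- an element with a given vanishing minor -/
theorem exists_mi_zero {m k : ℕ} {F : Type} [Field F] (hk0 : 0 < k) (hk : k < m)
    (f g : Fin k → Fin m) : ∃ A : SpecialLinearGroup (Fin m) F, mi f g A = 0 := by
  classical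
  obtain ⟨b, hb⟩ := exists_notin g hk
  set a := f ⟨0, hk0⟩ with ha
  let τ : Equiv.Perm (Fin m) := Equiv.swap a b
  let s : Fin m → F := fun x => if x = a then ((Equiv.Perm.sign τ : ℤ) : F) else 1
  have hdet : (diagonal s * (τ.toPEquiv.toMatrix : Matrix (Fin m) (Fin m) F)).det = 1 := by
    rw [det_mul, det_diagonal, det_permutation]
    have h1 : ∏ x, s x = ((Equiv.Perm.sign τ : ℤ) : F) := by
      rw [Finset.prod_eq_single a (fun x _ hx => if_neg hx) (fun h => absurd (mem_univ _) h)]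
      exact if_pos rfl
    rw [h1, ← Int.cast_mul]
    have h2 : ((Equiv.Perm.sign τ : ℤ) * (Equiv.Perm.sign τ : ℤ)) = 1 := by
      rw [← Units.val_mul, Int.units_mul_self]
      rfl
    rw [h2, Int.cast_one]
  refine ⟨⟨_, hdet⟩, ?_⟩
  change ((diagonal s * (τ.toPEquiv.toMatrix : Matrix (Fin m) (Fin m) F)).submatrix f g).det = 0
  refine det_eq_zero_of_row_eq_zero ⟨0, hk0⟩ fun j => ?_
  rw [submatrix_apply, diagonal_mul, PEquiv.toMatrix_apply]
  have h5 : ¬ g j ∈ τ.toPEquiv (f ⟨0, hk0⟩) := by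
    rw [Equiv.toPEquiv_apply, Option.mem_some_iff, ← ha, Equiv.swap_apply_left]
    exact fun h => hb j h.symm
  rw [if_neg h5, mul_zero]

section

variable {m d q : ℕ} {C : ℝ} {P : Matrix (Fin m) (Fin m) (MvPolynomial (Fin d) ℤ)}
  {hdet : P.det = 1}

theorem zeros (hC : 0 ≤ C) (hU : Unif P hdet q C) {k : ℕ} (hk0 : 0 < k) (hk : k < m)
    (f g : Fin k → Fin m) (B : ℕ) :
    ∃ p : ℕ, p.Prime ∧ B < p ∧ ∃ x : Fin d → ℤ, (p : ℤ) ∣ eval x (pol P f g) - 0 := by
  obtain ⟨p, hp1, hp2⟩ := Nat.exists_infinite_primes (B + q + 1 + ⌈2 * C + 1⌉₊)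
  have : Fact p.Prime := ⟨hp2⟩
  obtain ⟨A, hA⟩ := exists_mi_zero (F := ZMod p) hk0 hk f g
  obtain ⟨x, hx⟩ := surj hC hU (by omega) ((Nat.le_ceil _).trans (by exact_mod_cast (by omega))) A
  refine ⟨p, hp2, by omega, fun i => ((x i).val : ℤ), ?_⟩
  rw [sub_zero, ← ZMod.intCast_zmod_eq_zero_iff_dvd]
  change Int.castRingHom (ZMod p) (eval _ (pol P f g)) = 0
  rw [MvPolynomial.eval, MvPolynomial.coe_eval₂Hom, MvPolynomial.hom_eval₂]
  have e : (fun i => Int.castRingHom (ZMod p) ((x i).val : ℤ)) = x := by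
    funext i
    simp
  have h1 := aeval_pol P hdet f g x
  rw [hx, hA, MvPolynomial.aeval_def] at h1
  rw [← h1]
  congr 1

theorem not_const (hC : 0 ≤ C) (hU : Unif P hdet q C) {k : ℕ} (hk0 : 0 < k) (hk : k < m)
    (f g : Fin k → Fin m) (hf : Function.Injective f) (hg : Function.Injective g) (c : ℤ) :
    pol P f g ≠ MvPolynomial.C c := by
  intro h
  obtain ⟨p, hp, hB, x, hx⟩ := zeros hC hU hk0 hk f g c.natAbs
  rw [h, eval_C, sub_zero] at hx
  have h1 := Int.natAbs_dvd_natAbs.2 hx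
  rw [Int.natAbs_natCast] at h1
  have h2 : c = 0 := by
    by_contra hc
    have := Nat.le_of_dvd (Int.natAbs_pos.2 hc) h1
    omega
  rw [h2, map_zero] at h
  exact pol_ne hC hU hk f g hf hg h

/-- one minor -/
theorem single_U (hC : 0 ≤ C) (hU : Unif P hdet q C) {k : ℕ} (hk0 : 0 < k) (hk : k < m)
    (f g : Fin k → Fin m) (hf : Function.Injective f) (hg : Function.Injective g) :
    ∃ C₁ : ℝ, 0 ≤ C₁ ∧ ∃ B : ℕ, ∀ (p : ℕ) [Fact p.Prime], B < p → ∀ r : ZMod p, r ≠ 0 →
      |(p : ℝ) * ((univ.filter fun x : Fin d → ZMod p => aeval x (pol P f g) = r).card : ℝ) -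
        (p : ℝ) ^ d| * p ≤ C₁ * (p : ℝ) ^ d := by
  classical
  obtain ⟨K, B, hKB⟩ := zero_G hC hU hk f g hf hg
  refine ⟨K + C + 2, by positivity, B + q + ⌈2 * C + 1⌉₊, ?_⟩
  intro p hp hBp r hr
  have hpp := (Fact.out : p.Prime)
  have h0 := hKB p (by omega)
  have h1 := single_le (F := ZMod p) hk0 hk f g hf r hr
  have h2 := single_ge (F := ZMod p) hk0 hk f g hf r hr
  have hlow := hU p (by omega)
  have hε0 : 0 ≤ C / (p : ℝ) ^ 2 := by positivity
  have hpC : (2 * C + 1 : ℝ) ≤ p := (Nat.le_ceil _).trans (by exact_mod_cast (by omega))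
  have h3 := low_count hlow (fun A => mi f g A = r)
  have h4 := low_upper hlow hε0 (fun A => mi f g A = r)
  have e1 : ∀ inst : DecidablePred fun x : Fin d → ZMod p => mi f g (sp P hdet x) = r,
      @Finset.filter _ (fun x : Fin d → ZMod p => mi f g (sp P hdet x) = r) inst univ =
      univ.filter (fun x : Fin d → ZMod p => aeval x (pol P f g) = r) := fun inst => by
    ext x
    rw [mem_filter, mem_filter, aeval_pol P hdet]
  obtain ⟨SN, hSN⟩ : ∃ SN : Finset (SpecialLinearGroup (Fin m) (ZMod p)),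
      SN = univ.filter (fun A : SpecialLinearGroup (Fin m) (ZMod p) => mi f g A = r) := ⟨_, rfl⟩
  have e2 : ∀ inst : DecidablePred fun A : SpecialLinearGroup (Fin m) (ZMod p) => mi f g A = r,
      @Finset.filter _ (fun A : SpecialLinearGroup (Fin m) (ZMod p) => mi f g A = r) inst univ =
      SN := fun inst => by
    rw [hSN]
    congr!
  rw [e1, e2, Fintype.card_fun, ZMod.card, Fintype.card_fin] at h3 h4
  rw [ZMod.card, ← hSN] at h1 h2
  set M : ℝ := ((univ.filter fun x : Fin d → ZMod p => aeval x (pol P f g) = r).card : ℝ) with hM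
  set N : ℝ := (SN.card : ℝ) with hN
  set n₀ : ℝ := ((univ.filter fun A : SpecialLinearGroup (Fin m) (ZMod p) => mi f g A = 0).card : ℝ)
    with hn₀
  set G : ℝ := (Fintype.card (SpecialLinearGroup (Fin m) (ZMod p)) : ℝ) with hG
  have hG0 : 0 < G := by rw [hG]; exact_mod_cast Fintype.card_pos
  have hp2 : (2 : ℝ) ≤ p := by exact_mod_cast hpp.two_le
  have hpd : (0 : ℝ) < (p : ℝ) ^ d := by positivity
  have hN0 : 0 ≤ N := Nat.cast_nonneg _
  have hsub : (((p - 1 : ℕ) : ℝ)) = p - 1 := by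
    rw [Nat.cast_sub hpp.one_le, Nat.cast_one]
  have h0' : (p : ℝ) * n₀ ≤ K * G := by rw [hn₀, hG]; exact_mod_cast h0
  have h1' : ((p : ℝ) - 1) * N ≤ G := by rw [← hsub, hN, hG]; exact_mod_cast h1
  have h2' : G ≤ n₀ + ((p : ℝ) - 1) * N := by rw [← hsub, hN, hG, hn₀]; exact_mod_cast h2
  push_cast at h3 h4
  set D : ℝ := (p : ℝ) ^ d with hD
  have hCp : C / (p : ℝ) ^ 2 * p ^ 2 = C := by field_simp
  have hp0 : (0 : ℝ) < p := by linarith
  set ε : ℝ := C / (p : ℝ) ^ 2 with hε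
  have hεp : ε * p ≤ C / 2 := by
    have : ε * p * p = C := by rw [← hCp]; ring
    nlinarith [mul_nonneg hε0 hp0.le]
  -- upper bound
  have hup : G * ((p : ℝ) * M - D) * p ≤ G * ((K + C + 2) * D) := by
    have a1 : (p : ℝ) * p * N ≤ G * (p + 2) := by
      have b1 : (p : ℝ) * p ≤ (p - 1) * (p + 2) := by nlinarith
      calc (p : ℝ) * p * N ≤ (p - 1) * (p + 2) * N := mul_le_mul_of_nonneg_right b1 hN0
        _ = (p + 2) * ((p - 1) * N) := by ring
        _ ≤ (p + 2) * G := mul_le_mul_of_nonneg_left h1' (by linarith)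
        _ = _ := mul_comm _ _
    have a2 : (p : ℝ) * p * (G * M) ≤ (p : ℝ) * p * (N * D + ε * (G * D)) :=
      mul_le_mul_of_nonneg_left h4 (by positivity)
    have a3 : (p : ℝ) * p * (N * D + ε * (G * D)) = (p : ℝ) * p * N * D + (ε * p ^ 2) * (G * D) := by
      ring
    have a4 : (p : ℝ) * p * N * D ≤ G * (p + 2) * D := mul_le_mul_of_nonneg_right a1 hpd.le
    have a5 : 0 ≤ K * (G * D) := by positivity
    rw [a3, hCp] at a2
    nlinarith
  -- lower bound
  have hlo : G * (D - (p : ℝ) * M) * p ≤ G * ((K + C + 2) * D) := by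
    have a1 : G * (p - K) ≤ (p : ℝ) * ((p - 1) * N) := by nlinarith
    have a2 : G * (p - K) ≤ (p : ℝ) * p * N := by nlinarith [mul_nonneg hp0.le hN0]
    have a3 : (p : ℝ) * p * ((1 - ε) * N * D) ≤ (p : ℝ) * p * (G * M) :=
      mul_le_mul_of_nonneg_left h3 (by positivity)
    have a4 : (p : ℝ) * p * (ε * N * D) ≤ C * G * D := by
      have b1 : N ≤ G := by nlinarith
      calc (p : ℝ) * p * (ε * N * D) = (ε * p ^ 2) * N * D := by ring
        _ = C * N * D := by rw [hCp]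
        _ ≤ C * G * D := by
          apply mul_le_mul_of_nonneg_right _ hpd.le
          exact mul_le_mul_of_nonneg_left b1 hC
    have a5 : G * (p - K) * D ≤ (p : ℝ) * p * N * D := mul_le_mul_of_nonneg_right a2 hpd.le
    have a6 : 0 ≤ G * D := by positivity
    nlinarith
  have hup' : ((p : ℝ) * M - D) * p ≤ (K + C + 2) * D := by
    refine le_of_mul_le_mul_left ?_ hG0
    calc G * (((p : ℝ) * M - D) * p) = G * ((p : ℝ) * M - D) * p := by ring
      _ ≤ _ := hup
  have hlo' : (D - (p : ℝ) * M) * p ≤ (K + C + 2) * D := by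
    refine le_of_mul_le_mul_left ?_ hG0
    calc G * ((D - (p : ℝ) * M) * p) = G * (D - (p : ℝ) * M) * p := by ring
      _ ≤ _ := hlo
  rcases abs_cases ((p : ℝ) * M - D) with ⟨h, -⟩ | ⟨h, -⟩
  · rw [h]
    exact hup'
  · rw [h, neg_sub]
    exact hlo'

/-- two minors -/
theorem pair_U (hC : 0 ≤ C) (hU : Unif P hdet q C) {k k' : ℕ} {f g : Fin k → Fin m}
    {f' g' : Fin k' → Fin m} (hb : PairBd f g f' g') :
    ∃ C₁ : ℝ, 0 ≤ C₁ ∧ ∃ B : ℕ, ∀ (p : ℕ) [Fact p.Prime], B < p → ∀ r s : ZMod p, r ≠ 0 → s ≠ 0 →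
      (p : ℝ) ^ 2 * ((univ.filter fun x : Fin d → ZMod p => aeval x (pol P f g) = r ∧
        aeval x (pol P f' g') = s).card : ℝ) ≤ C₁ * (p : ℝ) ^ d := by
  classical
  obtain ⟨K, B, hKB⟩ := hb
  refine ⟨2 * K + C, by positivity, B + q + ⌈2 * C + 1⌉₊, ?_⟩
  intro p hp hBp r s hr hs
  have hpp := (Fact.out : p.Prime)
  have h1 := hKB p (by omega) r s hr hs
  have hlow := hU p (by omega)
  have hε0 : 0 ≤ C / (p : ℝ) ^ 2 := by positivity
  have h4 := low_upper hlow hε0 (fun A => mi f g A = r ∧ mi f' g' A = s)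
  have e1 : ∀ inst : DecidablePred fun x : Fin d → ZMod p => mi f g (sp P hdet x) = r ∧
      mi f' g' (sp P hdet x) = s,
      @Finset.filter _ (fun x : Fin d → ZMod p => mi f g (sp P hdet x) = r ∧
        mi f' g' (sp P hdet x) = s) inst univ =
      univ.filter (fun x : Fin d → ZMod p => aeval x (pol P f g) = r ∧
        aeval x (pol P f' g') = s) := fun inst => by
    ext x
    rw [mem_filter, mem_filter, aeval_pol P hdet, aeval_pol P hdet]
  obtain ⟨SN, hSN⟩ : ∃ SN : Finset (SpecialLinearGroup (Fin m) (ZMod p)),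
      SN = univ.filter (fun A : SpecialLinearGroup (Fin m) (ZMod p) => mi f g A = r ∧
        mi f' g' A = s) := ⟨_, rfl⟩
  have e2 : ∀ inst : DecidablePred fun A : SpecialLinearGroup (Fin m) (ZMod p) =>
      mi f g A = r ∧ mi f' g' A = s,
      @Finset.filter _ (fun A : SpecialLinearGroup (Fin m) (ZMod p) => mi f g A = r ∧
        mi f' g' A = s) inst univ = SN := fun inst => by
    rw [hSN]
    congr!
  rw [e1, e2, Fintype.card_fun, ZMod.card, Fintype.card_fin] at h4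
  rw [← hSN] at h1
  set M : ℝ := ((univ.filter fun x : Fin d → ZMod p => aeval x (pol P f g) = r ∧
        aeval x (pol P f' g') = s).card : ℝ) with hM
  set N : ℝ := (SN.card : ℝ) with hN
  set G : ℝ := (Fintype.card (SpecialLinearGroup (Fin m) (ZMod p)) : ℝ) with hG
  have hG0 : 0 < G := by rw [hG]; exact_mod_cast Fintype.card_pos
  have hp2 : (2 : ℝ) ≤ p := by exact_mod_cast hpp.two_le
  have hp0 : (0 : ℝ) < p := by linarith
  have hN0 : 0 ≤ N := Nat.cast_nonneg _
  have hsub : (((p - 1 : ℕ) : ℝ)) = p - 1 := by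
    rw [Nat.cast_sub hpp.one_le, Nat.cast_one]
  have h1' : (p : ℝ) * ((p : ℝ) - 1) * N ≤ K * G := by
    rw [← hsub, hN, hG]; exact_mod_cast h1
  push_cast at h4
  set D : ℝ := (p : ℝ) ^ d with hD
  have hpd : (0 : ℝ) < D := by positivity
  have hCp : C / (p : ℝ) ^ 2 * p ^ 2 = C := by field_simp
  set ε : ℝ := C / (p : ℝ) ^ 2 with hε
  have a1 : (p : ℝ) ^ 2 * N ≤ 2 * K * G := by
    have b1 : (p : ℝ) ^ 2 ≤ 2 * (p * (p - 1)) := by nlinarith
    calc (p : ℝ) ^ 2 * N ≤ 2 * (p * (p - 1)) * N := mul_le_mul_of_nonneg_right b1 hN0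
      _ = 2 * (p * (p - 1) * N) := by ring
      _ ≤ 2 * (K * G) := by linarith
      _ = _ := by ring
  have a2 : (p : ℝ) ^ 2 * (G * M) ≤ (p : ℝ) ^ 2 * (N * D + ε * (G * D)) :=
    mul_le_mul_of_nonneg_left h4 (by positivity)
  have a3 : (p : ℝ) ^ 2 * (N * D + ε * (G * D)) = (p : ℝ) ^ 2 * N * D + (ε * p ^ 2) * (G * D) := by
    ring
  rw [a3, hCp] at a2
  have a4 : (p : ℝ) ^ 2 * N * D ≤ 2 * K * G * D := mul_le_mul_of_nonneg_right a1 hpd.le
  refine le_of_mul_le_mul_left ?_ hG0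
  calc G * ((p : ℝ) ^ 2 * M) = (p : ℝ) ^ 2 * (G * M) := by ring
    _ ≤ (p : ℝ) ^ 2 * N * D + C * (G * D) := a2
    _ ≤ 2 * K * G * D + C * (G * D) := by linarith
    _ = _ := by ring

end

end Pool.Agent.R433.SL
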