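import Pool.Agent.R433.SL.Equi

/-! Equidistribution modulo the primes of the minors, for a fixed nonzero determinant. -/

set_option autoImplicit false
set_option linter.unusedSectionVars false

namespace Pool.Agent.R433.SL

open Finset Matrix MvPolynomial

section

variable {m d q : ℕ} {C : ℝ} {P : Matrix (Fin m) (Fin m) (MvPolynomial (Fin d) ℤ)}

/-- uniformity modulo the primes, up to a diagonal matrix -/
def UnifN (P : Matrix (Fin m) (Fin m) (MvPolynomial (Fin d) ℤ)) (q : ℕ) (C : ℝ) : Prop :=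
  ∀ (p : ℕ) [Fact p.Prime], q < p → ∃ δ : Fin m → ZMod p, (∀ i, δ i ≠ 0) ∧
    ∃ X : (Fin d → ZMod p) → SpecialLinearGroup (Fin m) (ZMod p),
      (∀ x, P.map (aeval x) = diagonal δ * (X x).1) ∧ Low X (C / p ^ 2)

/-- bound for the number of zeros of a minor -/
def ZeroBd {k : ℕ} (f g : Fin k → Fin m) : Prop :=
  ∃ K B : ℕ, ∀ (p : ℕ) [Fact p.Prime], B < p →
    p * (univ.filter fun A : SpecialLinearGroup (Fin m) (ZMod p) => mi f g A = 0).card ≤
      K * Fintype.card (SpecialLinearGroup (Fin m) (ZMod p))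

theorem aeval_polN {k p : ℕ} [Fact p.Prime] (f g : Fin k → Fin m) {δ : Fin m → ZMod p}
    {X : (Fin d → ZMod p) → SpecialLinearGroup (Fin m) (ZMod p)}
    (hX : ∀ x, P.map (aeval x) = diagonal δ * (X x).1) (x : Fin d → ZMod p) :
    aeval x (pol P f g) = (∏ i, δ (f i)) * mi f g (X x) := by
  have h1 : aeval x (pol P f g) = ((P.map (aeval x)).submatrix f g).det :=
    AlgHom.map_det (aeval x : MvPolynomial (Fin d) ℤ →ₐ[ℤ] ZMod p) (P.submatrix f g)
  rw [h1, hX, mi, ← det_mul_column]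
  congr 1
  ext i j
  rw [submatrix_apply, diagonal_mul]
  rfl

theorem nu_ne {k p : ℕ} [Fact p.Prime] (f : Fin k → Fin m) {δ : Fin m → ZMod p}
    (hδ : ∀ i, δ i ≠ 0) : (∏ i, δ (f i)) ≠ 0 := Finset.prod_ne_zero_iff.2 fun i _ => hδ (f i)

theorem surjN {p : ℕ} [Fact p.Prime] {X : (Fin d → ZMod p) → SpecialLinearGroup (Fin m) (ZMod p)}
    {ε : ℝ} (hε : ε ≤ 1 / 2) (hX : Low X ε) (A : SpecialLinearGroup (Fin m) (ZMod p)) :
    ∃ x, X x = A := by
  classical
  have h := hX A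
  have h2 : (0 : ℝ) < Fintype.card (Fin d → ZMod p) := by exact_mod_cast Fintype.card_pos
  by_contra hcon
  push Not at hcon
  have h3 : ∀ inst : DecidablePred fun x : Fin d → ZMod p => X x = A,
      @Finset.filter _ (fun x : Fin d → ZMod p => X x = A) inst univ = ∅ := fun inst =>
    Finset.filter_false_of_mem fun x _ => hcon x
  rw [h3, Finset.card_empty, Nat.cast_zero, mul_zero] at h
  nlinarith

theorem zerosN (hC : 0 ≤ C) (hU : UnifN P q C) {k : ℕ} (hk0 : 0 < k) (hk : k < m)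
    (f g : Fin k → Fin m) (B : ℕ) :
    ∃ p : ℕ, p.Prime ∧ B < p ∧ ∃ x : Fin d → ℤ, (p : ℤ) ∣ eval x (pol P f g) - 0 := by
  obtain ⟨p, hp1, hp2⟩ := Nat.exists_infinite_primes (B + q + 1 + ⌈2 * C + 1⌉₊)
  have : Fact p.Prime := ⟨hp2⟩
  obtain ⟨δ, hδ, X, hX, hlow⟩ := hU p (by omega)
  obtain ⟨A, hA⟩ := exists_mi_zero (F := ZMod p) hk0 hk f g
  obtain ⟨x, hx⟩ := surjN (eps_small hC ((Nat.le_ceil _).trans (by exact_mod_cast (by omega)))) hlow A
  refine ⟨p, hp2, by omega, fun i => ((x i).val : ℤ), ?_⟩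
  rw [sub_zero, ← ZMod.intCast_zmod_eq_zero_iff_dvd]
  change Int.castRingHom (ZMod p) (eval _ (pol P f g)) = 0
  rw [MvPolynomial.eval, MvPolynomial.coe_eval₂Hom, MvPolynomial.hom_eval₂]
  have e : (fun i => Int.castRingHom (ZMod p) ((x i).val : ℤ)) = x := by
    funext i
    simp
  have h1 := aeval_polN f g hX x
  rw [hx, hA, mul_zero, MvPolynomial.aeval_def] at h1
  rw [← h1]
  congr 1

theorem pol_neN (hC : 0 ≤ C) (hU : UnifN P q C) {k : ℕ} (hk : k < m) (f g : Fin k → Fin m)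
    (hf : Function.Injective f) (hg : Function.Injective g) : pol P f g ≠ 0 := by
  obtain ⟨p, hp1, hp2⟩ := Nat.exists_infinite_primes (q + 1 + ⌈2 * C + 1⌉₊)
  have : Fact p.Prime := ⟨hp2⟩
  obtain ⟨δ, hδ, X, hX, hlow⟩ := hU p (by omega)
  obtain ⟨A, hA⟩ := exists_mi (F := ZMod p) hk f g hf hg
  obtain ⟨x, hx⟩ := surjN (eps_small hC ((Nat.le_ceil _).trans (by exact_mod_cast (by omega)))) hlow A
  intro h
  have h1 := aeval_polN f g hX x
  rw [hx, h, map_zero] at h1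
  exact (mul_ne_zero (nu_ne f hδ) hA) h1.symm

theorem not_constN (hC : 0 ≤ C) (hU : UnifN P q C) {k : ℕ} (hk0 : 0 < k) (hk : k < m)
    (f g : Fin k → Fin m) (hf : Function.Injective f) (hg : Function.Injective g) (c : ℤ) :
    pol P f g ≠ MvPolynomial.C c := by
  intro h
  obtain ⟨p, hp, hB, x, hx⟩ := zerosN hC hU hk0 hk f g c.natAbs
  rw [h, eval_C, sub_zero] at hx
  have h1 := Int.natAbs_dvd_natAbs.2 hx
  rw [Int.natAbs_natCast] at h1
  have h2 : c = 0 := by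
    by_contra hc
    have := Nat.le_of_dvd (Int.natAbs_pos.2 hc) h1
    omega
  rw [h2, map_zero] at h
  exact pol_neN hC hU hk f g hf hg h

/-- one minor -/
theorem single_UN (hC : 0 ≤ C) (hU : UnifN P q C) {k : ℕ} (hk0 : 0 < k) (hk : k < m)
    (f g : Fin k → Fin m) (hf : Function.Injective f) (hz : ZeroBd f g) :
    ∃ C₁ : ℝ, 0 ≤ C₁ ∧ ∃ B : ℕ, ∀ (p : ℕ) [Fact p.Prime], B < p → ∀ r : ZMod p, r ≠ 0 →
      |(p : ℝ) * ((univ.filter fun x : Fin d → ZMod p => aeval x (pol P f g) = r).card : ℝ) -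
        (p : ℝ) ^ d| * p ≤ C₁ * (p : ℝ) ^ d := by
  classical
  obtain ⟨K, B, hKB⟩ := hz
  refine ⟨K + C + 2, by positivity, B + q + ⌈2 * C + 1⌉₊, ?_⟩
  intro p hp hBp r₀ hr₀
  have hpp := (Fact.out : p.Prime)
  obtain ⟨δ, hδ, X, hX, hlow⟩ := hU p (by omega)
  have hν := nu_ne f hδ
  obtain ⟨r, hrdef⟩ : ∃ r, r = r₀ / ∏ i, δ (f i) := ⟨_, rfl⟩
  have hr : r ≠ 0 := by rw [hrdef]; exact div_ne_zero hr₀ hν
  have hiff : ∀ y : ZMod p, (∏ i, δ (f i)) * y = r₀ ↔ y = r := by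
    intro y
    rw [hrdef, eq_div_iff hν, mul_comm]
  have h0 := hKB p (by omega)
  have h1 := single_le (F := ZMod p) hk0 hk f g hf r hr
  have h2 := single_ge (F := ZMod p) hk0 hk f g hf r hr
  have hε0 : 0 ≤ C / (p : ℝ) ^ 2 := by positivity
  have hpC : (2 * C + 1 : ℝ) ≤ p := (Nat.le_ceil _).trans (by exact_mod_cast (by omega))
  have h3 := low_count hlow (fun A => mi f g A = r)
  have h4 := low_upper hlow hε0 (fun A => mi f g A = r)
  have e1 : ∀ inst : DecidablePred fun x : Fin d → ZMod p => mi f g (X x) = r,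
      @Finset.filter _ (fun x : Fin d → ZMod p => mi f g (X x) = r) inst univ =
      univ.filter (fun x : Fin d → ZMod p => aeval x (pol P f g) = r₀) := fun inst => by
    ext x
    rw [mem_filter, mem_filter, aeval_polN f g hX, hiff]
  obtain ⟨SN, hSN⟩ : ∃ SN : Finset (SpecialLinearGroup (Fin m) (ZMod p)),
      SN = univ.filter (fun A : SpecialLinearGroup (Fin m) (ZMod p) => mi f g A = r) := ⟨_, rfl⟩
  have e2 : ∀ inst : DecidablePred fun A : SpecialLinearGroup (Fin m) (ZMod p) => mi f g A = r,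
      @Finset.filter _ (fun A : SpecialLinearGroup (Fin m) (ZMod p) => mi f g A = r) inst univ =
      SN := fun inst => by
    rw [hSN]
    congr!
  rw [e1, e2, Fintype.card_fun, ZMod.card, Fintype.card_fin] at h3 h4
  rw [ZMod.card, ← hSN] at h1 h2
  set M : ℝ := ((univ.filter fun x : Fin d → ZMod p => aeval x (pol P f g) = r₀).card : ℝ) with hM
  set N : ℝ := (SN.card : ℝ) with hN
  set n₀ : ℝ := ((univ.filter fun A : SpecialLinearGroup (Fin m) (ZMod p) => mi f g A = 0).card : ℝ)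
    with hn₀
  set G : ℝ := (Fintype.card (SpecialLinearGroup (Fin m) (ZMod p)) : ℝ) with hG
  have hG0 : 0 < G := by rw [hG]; exact_mod_cast Fintype.card_pos
  have hp2 : (2 : ℝ) ≤ p := by exact_mod_cast hpp.two_le
  have hpd : (0 : ℝ) < (p : ℝ) ^ d := by positivity
  have hN0 : 0 ≤ N := Nat.cast_nonneg _
  have hsub : (((p - 1 : ℕ) : ℝ)) = p - 1 := by
    rw [Nat.cast_sub hpp.one_le, Nat.cast_one]
  have h0' : (p : ℝ) * n₀ ≤ K * G := by rw [hn₀, hG]; exact_mod_cast h0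
  have h1' : ((p : ℝ) - 1) * N ≤ G := by rw [← hsub, hN, hG]; exact_mod_cast h1
  have h2' : G ≤ n₀ + ((p : ℝ) - 1) * N := by rw [← hsub, hN, hG, hn₀]; exact_mod_cast h2
  push_cast at h3 h4
  set D : ℝ := (p : ℝ) ^ d with hD
  have hCp : C / (p : ℝ) ^ 2 * p ^ 2 = C := by field_simp
  have hp0 : (0 : ℝ) < p := by linarith
  set ε : ℝ := C / (p : ℝ) ^ 2 with hε
  have hεp : ε * p ≤ C / 2 := by
    have : ε * p * p = C := by rw [← hCp]; ring
    nlinarith [mul_nonneg hε0 hp0.le]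
  -- upper bound
  have hup : G * ((p : ℝ) * M - D) * p ≤ G * ((K + C + 2) * D) := by
    have a1 : (p : ℝ) * p * N ≤ G * (p + 2) := by
      have b1 : (p : ℝ) * p ≤ (p - 1) * (p + 2) := by nlinarith
      calc (p : ℝ) * p * N ≤ (p - 1) * (p + 2) * N := mul_le_mul_of_nonneg_right b1 hN0
        _ = (p + 2) * ((p - 1) * N) := by ring
        _ ≤ (p + 2) * G := mul_le_mul_of_nonneg_left h1' (by linarith)
        _ = _ := mul_comm _ _
    have a2 : (p : ℝ) * p * (G * M) ≤ (p : ℝ) * p * (N * D + ε * (G * D)) :=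
      mul_le_mul_of_nonneg_left h4 (by positivity)
    have a3 : (p : ℝ) * p * (N * D + ε * (G * D)) = (p : ℝ) * p * N * D + (ε * p ^ 2) * (G * D) := by
      ring
    have a4 : (p : ℝ) * p * N * D ≤ G * (p + 2) * D := mul_le_mul_of_nonneg_right a1 hpd.le
    have a5 : 0 ≤ K * (G * D) := by positivity
    rw [a3, hCp] at a2
    nlinarith
  -- lower bound
  have hlo : G * (D - (p : ℝ) * M) * p ≤ G * ((K + C + 2) * D) := by
    have a1 : G * (p - K) ≤ (p : ℝ) * ((p - 1) * N) := by nlinarith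
    have a2 : G * (p - K) ≤ (p : ℝ) * p * N := by nlinarith [mul_nonneg hp0.le hN0]
    have a3 : (p : ℝ) * p * ((1 - ε) * N * D) ≤ (p : ℝ) * p * (G * M) :=
      mul_le_mul_of_nonneg_left h3 (by positivity)
    have a4 : (p : ℝ) * p * (ε * N * D) ≤ C * G * D := by
      have b1 : N ≤ G := by nlinarith
      calc (p : ℝ) * p * (ε * N * D) = (ε * p ^ 2) * N * D := by ring
        _ = C * N * D := by rw [hCp]
        _ ≤ C * G * D := by
          apply mul_le_mul_of_nonneg_right _ hpd.le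
          exact mul_le_mul_of_nonneg_left b1 hC
    have a5 : G * (p - K) * D ≤ (p : ℝ) * p * N * D := mul_le_mul_of_nonneg_right a2 hpd.le
    have a6 : 0 ≤ G * D := by positivity
    nlinarith
  have hup' : ((p : ℝ) * M - D) * p ≤ (K + C + 2) * D := by
    refine le_of_mul_le_mul_left ?_ hG0
    calc G * (((p : ℝ) * M - D) * p) = G * ((p : ℝ) * M - D) * p := by ring
      _ ≤ _ := hup
  have hlo' : (D - (p : ℝ) * M) * p ≤ (K + C + 2) * D := by
    refine le_of_mul_le_mul_left ?_ hG0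
    calc G * ((D - (p : ℝ) * M) * p) = G * (D - (p : ℝ) * M) * p := by ring
      _ ≤ _ := hlo
  rcases abs_cases ((p : ℝ) * M - D) with ⟨h, -⟩ | ⟨h, -⟩
  · rw [h]
    exact hup'
  · rw [h, neg_sub]
    exact hlo'

/-- two minors -/
theorem pair_UN (hC : 0 ≤ C) (hU : UnifN P q C) {k k' : ℕ} {f g : Fin k → Fin m}
    {f' g' : Fin k' → Fin m} (hb : PairBd f g f' g') :
    ∃ C₁ : ℝ, 0 ≤ C₁ ∧ ∃ B : ℕ, ∀ (p : ℕ) [Fact p.Prime], B < p → ∀ r s : ZMod p, r ≠ 0 → s ≠ 0 →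
      (p : ℝ) ^ 2 * ((univ.filter fun x : Fin d → ZMod p => aeval x (pol P f g) = r ∧
        aeval x (pol P f' g') = s).card : ℝ) ≤ C₁ * (p : ℝ) ^ d := by
  classical
  obtain ⟨K, B, hKB⟩ := hb
  refine ⟨2 * K + C, by positivity, B + q + ⌈2 * C + 1⌉₊, ?_⟩
  intro p hp hBp r₀ s₀ hr₀ hs₀
  have hpp := (Fact.out : p.Prime)
  obtain ⟨δ, hδ, X, hX, hlow⟩ := hU p (by omega)
  have hν := nu_ne f hδ
  have hν' := nu_ne f' hδ
  obtain ⟨r, hrdef⟩ : ∃ r, r = r₀ / ∏ i, δ (f i) := ⟨_, rfl⟩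
  have hr : r ≠ 0 := by rw [hrdef]; exact div_ne_zero hr₀ hν
  have hiff : ∀ y : ZMod p, (∏ i, δ (f i)) * y = r₀ ↔ y = r := by
    intro y
    rw [hrdef, eq_div_iff hν, mul_comm]
  obtain ⟨s, hsdef⟩ : ∃ s, s = s₀ / ∏ i, δ (f' i) := ⟨_, rfl⟩
  have hs : s ≠ 0 := by rw [hsdef]; exact div_ne_zero hs₀ hν'
  have hiff' : ∀ y : ZMod p, (∏ i, δ (f' i)) * y = s₀ ↔ y = s := by
    intro y
    rw [hsdef, eq_div_iff hν', mul_comm]
  have h1 := hKB p (by omega) r s hr hs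
  have hε0 : 0 ≤ C / (p : ℝ) ^ 2 := by positivity
  have h4 := low_upper hlow hε0 (fun A => mi f g A = r ∧ mi f' g' A = s)
  have e1 : ∀ inst : DecidablePred fun x : Fin d → ZMod p => mi f g (X x) = r ∧
      mi f' g' (X x) = s,
      @Finset.filter _ (fun x : Fin d → ZMod p => mi f g (X x) = r ∧
        mi f' g' (X x) = s) inst univ =
      univ.filter (fun x : Fin d → ZMod p => aeval x (pol P f g) = r₀ ∧
        aeval x (pol P f' g') = s₀) := fun inst => by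
    ext x
    rw [mem_filter, mem_filter, aeval_polN f g hX, aeval_polN f' g' hX, hiff, hiff']
  obtain ⟨SN, hSN⟩ : ∃ SN : Finset (SpecialLinearGroup (Fin m) (ZMod p)),
      SN = univ.filter (fun A : SpecialLinearGroup (Fin m) (ZMod p) => mi f g A = r ∧
        mi f' g' A = s) := ⟨_, rfl⟩
  have e2 : ∀ inst : DecidablePred fun A : SpecialLinearGroup (Fin m) (ZMod p) =>
      mi f g A = r ∧ mi f' g' A = s,
      @Finset.filter _ (fun A : SpecialLinearGroup (Fin m) (ZMod p) => mi f g A = r ∧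
        mi f' g' A = s) inst univ = SN := fun inst => by
    rw [hSN]
    congr!
  rw [e1, e2, Fintype.card_fun, ZMod.card, Fintype.card_fin] at h4
  rw [← hSN] at h1
  set M : ℝ := ((univ.filter fun x : Fin d → ZMod p => aeval x (pol P f g) = r₀ ∧
        aeval x (pol P f' g') = s₀).card : ℝ) with hM
  set N : ℝ := (SN.card : ℝ) with hN
  set G : ℝ := (Fintype.card (SpecialLinearGroup (Fin m) (ZMod p)) : ℝ) with hG
  have hG0 : 0 < G := by rw [hG]; exact_mod_cast Fintype.card_pos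
  have hp2 : (2 : ℝ) ≤ p := by exact_mod_cast hpp.two_le
  have hp0 : (0 : ℝ) < p := by linarith
  have hN0 : 0 ≤ N := Nat.cast_nonneg _
  have hsub : (((p - 1 : ℕ) : ℝ)) = p - 1 := by
    rw [Nat.cast_sub hpp.one_le, Nat.cast_one]
  have h1' : (p : ℝ) * ((p : ℝ) - 1) * N ≤ K * G := by
    rw [← hsub, hN, hG]; exact_mod_cast h1
  push_cast at h4
  set D : ℝ := (p : ℝ) ^ d with hD
  have hpd : (0 : ℝ) < D := by positivity
  have hCp : C / (p : ℝ) ^ 2 * p ^ 2 = C := by field_simp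
  set ε : ℝ := C / (p : ℝ) ^ 2 with hε
  have a1 : (p : ℝ) ^ 2 * N ≤ 2 * K * G := by
    have b1 : (p : ℝ) ^ 2 ≤ 2 * (p * (p - 1)) := by nlinarith
    calc (p : ℝ) ^ 2 * N ≤ 2 * (p * (p - 1)) * N := mul_le_mul_of_nonneg_right b1 hN0
      _ = 2 * (p * (p - 1) * N) := by ring
      _ ≤ 2 * (K * G) := by linarith
      _ = _ := by ring
  have a2 : (p : ℝ) ^ 2 * (G * M) ≤ (p : ℝ) ^ 2 * (N * D + ε * (G * D)) :=
    mul_le_mul_of_nonneg_left h4 (by positivity)
  have a3 : (p : ℝ) ^ 2 * (N * D + ε * (G * D)) = (p : ℝ) ^ 2 * N * D + (ε * p ^ 2) * (G * D) := by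
    ring
  rw [a3, hCp] at a2
  have a4 : (p : ℝ) ^ 2 * N * D ≤ 2 * K * G * D := mul_le_mul_of_nonneg_right a1 hpd.le
  refine le_of_mul_le_mul_left ?_ hG0
  calc G * ((p : ℝ) ^ 2 * M) = (p : ℝ) ^ 2 * (G * M) := by ring
    _ ≤ (p : ℝ) ^ 2 * N * D + C * (G * D) := a2
    _ ≤ 2 * K * G * D + C * (G * D) := by linarith
    _ = _ := by ring

end

end Pool.Agent.R433.SL
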