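import Mathlib

/-! Boxes on which finitely many polynomials are large. -/

set_option autoImplicit false

namespace Pool.Agent.R433.SL

open Finset MvPolynomial

/-- the top form of a polynomial as a function on real points -/
noncomputable def top {d : ℕ} (F : MvPolynomial (Fin d) ℤ) (z : Fin d → ℝ) : ℝ :=
  ∑ e ∈ F.support.filter (fun e => (∑ i, e i) = F.totalDegree), ((F.coeff e : ℤ) : ℝ) * ∏ i, z i ^ e i

theorem top_cont {d : ℕ} (F : MvPolynomial (Fin d) ℤ) : Continuous (top F) := by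
  unfold top
  refine continuous_finsetSum _ fun e _ => ?_
  exact continuous_const.mul (continuous_finsetProd _ fun i _ => (continuous_apply i).pow _)

theorem top_int {d : ℕ} (F : MvPolynomial (Fin d) ℤ) (v : Fin d → ℤ) :
    top F (fun i => (v i : ℝ)) = ((eval v (homogeneousComponent F.totalDegree F) : ℤ) : ℝ) := by
  rw [MvPolynomial.eval_eq']
  push_cast
  have h1 : (homogeneousComponent F.totalDegree F).support =
      F.support.filter (fun e => (∑ i, e i) = F.totalDegree) := by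
    ext e
    rw [mem_support_iff, coeff_homogeneousComponent, mem_filter, mem_support_iff]
    have h2 : e.degree = ∑ i, e i := by
      rw [Finsupp.degree_eq_sum]
    rw [h2]
    by_cases h : ∑ i, e i = F.totalDegree
    · rw [if_pos h]
      exact ⟨fun h' => ⟨h', h⟩, fun h' => h'.1⟩
    · rw [if_neg h]
      exact ⟨fun h' => absurd rfl h', fun h' => absurd h'.2 h⟩
  rw [h1, top]
  refine Finset.sum_congr rfl fun e he => ?_
  rw [coeff_homogeneousComponent, Finsupp.degree_eq_sum, if_pos (mem_filter.1 he).2]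

theorem top_ne {d : ℕ} (F : MvPolynomial (Fin d) ℤ) (hF : F ≠ 0) :
    homogeneousComponent F.totalDegree F ≠ 0 := by
  intro h
  have hs : F.support.Nonempty := by rwa [Finset.nonempty_iff_ne_empty, ne_eq, support_eq_empty]
  obtain ⟨e, he, he2⟩ := Finset.exists_mem_eq_sup F.support hs (fun s => s.sum fun _ e => e)
  have h1 : e.degree = F.totalDegree := by
    rw [totalDegree, he2]
    rfl
  have h2 := congrArg (coeff e) h
  rw [coeff_homogeneousComponent, if_pos h1, coeff_zero] at h2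
  exact (mem_support_iff.1 he) h2

theorem top_approx {d : ℕ} (F : MvPolynomial (Fin d) ℤ) (V : ℝ) (hV : 1 ≤ V) :
    ∃ A : ℝ, 0 ≤ A ∧ ∀ (S : ℝ), 1 ≤ S → ∀ (x : Fin d → ℤ) (z : Fin d → ℝ),
      (∀ i, (x i : ℝ) = S * z i) → (∀ i, |z i| ≤ V) →
      |((eval x F : ℤ) : ℝ) - S ^ F.totalDegree * top F z| * S ≤ A * S ^ F.totalDegree := by
  set D := F.totalDegree with hD
  refine ⟨(∑ e ∈ F.support, |((F.coeff e : ℤ) : ℝ)|) * V ^ D, by positivity, ?_⟩
  intro S hS x z hx hz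
  have hS0 : 0 < S := by linarith
  have h1 : ((eval x F : ℤ) : ℝ) = ∑ e ∈ F.support, ((F.coeff e : ℤ) : ℝ) * (S ^ (∑ i, e i) *
      ∏ i, z i ^ e i) := by
    rw [MvPolynomial.eval_eq']
    push_cast
    refine Finset.sum_congr rfl fun e _ => ?_
    congr 1
    rw [← Finset.prod_pow_eq_pow_sum, ← Finset.prod_mul_distrib]
    exact Finset.prod_congr rfl fun i _ => by rw [hx i, mul_pow]
  have h2 : S ^ D * top F z = ∑ e ∈ F.support.filter (fun e => (∑ i, e i) = D),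
      ((F.coeff e : ℤ) : ℝ) * (S ^ (∑ i, e i) * ∏ i, z i ^ e i) := by
    rw [top, Finset.mul_sum]
    refine Finset.sum_congr rfl fun e he => ?_
    rw [(mem_filter.1 he).2]
    ring
  have h3 : ((eval x F : ℤ) : ℝ) - S ^ D * top F z =
      ∑ e ∈ F.support.filter (fun e => ¬ (∑ i, e i) = D),
        ((F.coeff e : ℤ) : ℝ) * (S ^ (∑ i, e i) * ∏ i, z i ^ e i) := by
    rw [h1, h2, ← Finset.sum_filter_add_sum_filter_not F.support (fun e => (∑ i, e i) = D)]
    ring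
  rw [h3]
  have h4 : |∑ e ∈ F.support.filter (fun e => ¬ (∑ i, e i) = D),
        ((F.coeff e : ℤ) : ℝ) * (S ^ (∑ i, e i) * ∏ i, z i ^ e i)| * S ≤
      ∑ e ∈ F.support.filter (fun e => ¬ (∑ i, e i) = D), |((F.coeff e : ℤ) : ℝ)| * (S ^ D * V ^ D) := by
    refine le_trans (mul_le_mul_of_nonneg_right (Finset.abs_sum_le_sum_abs _ _) hS0.le) ?_
    rw [Finset.sum_mul]
    refine Finset.sum_le_sum fun e he => ?_
    have he1 : (∑ i, e i) ≤ D := by
      have h5 := le_totalDegree (mem_filter.1 he).1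
      rw [Finsupp.sum_fintype _ _ (fun _ => rfl)] at h5
      exact h5
    have he2 : (∑ i, e i) + 1 ≤ D := by
      have := (mem_filter.1 he).2
      omega
    rw [abs_mul, mul_assoc]
    apply mul_le_mul_of_nonneg_left _ (abs_nonneg _)
    rw [abs_mul, abs_of_nonneg (by positivity : (0 : ℝ) ≤ S ^ (∑ i, e i)), Finset.abs_prod]
    have h6 : ∏ i, |z i ^ e i| ≤ V ^ D := by
      calc ∏ i, |z i ^ e i| ≤ ∏ i, V ^ e i := by
            refine Finset.prod_le_prod (fun i _ => abs_nonneg _) fun i _ => ?_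
            rw [abs_pow]
            exact pow_le_pow_left₀ (abs_nonneg _) (hz i) _
        _ = V ^ (∑ i, e i) := Finset.prod_pow_eq_pow_sum _ _ _
        _ ≤ V ^ D := pow_le_pow_right₀ hV he1
    calc S ^ (∑ i, e i) * (∏ i, |z i ^ e i|) * S = S ^ ((∑ i, e i) + 1) * ∏ i, |z i ^ e i| := by
          rw [pow_succ]; ring
      _ ≤ S ^ D * V ^ D := mul_le_mul (pow_le_pow_right₀ hS he2) h6
          (Finset.prod_nonneg fun _ _ => abs_nonneg _) (by positivity)
  refine h4.trans ?_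
  rw [← Finset.sum_mul]
  calc (∑ e ∈ F.support.filter (fun e => ¬ (∑ i, e i) = D), |((F.coeff e : ℤ) : ℝ)|) * (S ^ D * V ^ D) ≤
        (∑ e ∈ F.support, |((F.coeff e : ℤ) : ℝ)|) * (S ^ D * V ^ D) := by
        apply mul_le_mul_of_nonneg_right _ (by positivity)
        exact Finset.sum_le_sum_of_subset_of_nonneg (Finset.filter_subset _ _)
          (fun _ _ _ => abs_nonneg _)
    _ = _ := by ring

/-- one polynomial -/
theorem far_one {d : ℕ} (F : MvPolynomial (Fin d) ℤ) (hF : ∀ c, F ≠ C c) (v : Fin d → ℤ)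
    (hv : eval v (homogeneousComponent F.totalDegree F) ≠ 0) :
    ∃ Z₁ : ℕ, ∀ Z : ℕ, Z₁ ≤ Z → ∀ x : Fin d → ℤ,
      (∀ i, (Z : ℤ) ^ 2 * v i < x i ∧ x i ≤ (Z : ℤ) ^ 2 * v i + Z) →
      2 * (Z : ℝ) ≤ |((eval x F : ℤ) : ℝ)| := by
  have hD : 0 < F.totalDegree := by
    by_contra h
    have h0 : F.totalDegree = 0 := by omega
    exact hF _ (totalDegree_eq_zero_iff_eq_C.1 h0)
  have ht : 1 ≤ |top F fun i => (v i : ℝ)| := by
    rw [top_int]
    have : (1 : ℤ) ≤ |eval v (homogeneousComponent F.totalDegree F)| := Int.one_le_abs hv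
    exact_mod_cast this
  have hcont := (top_cont F).continuousAt (x := fun i => (v i : ℝ))
  rw [Metric.continuousAt_iff] at hcont
  obtain ⟨δ, hδ, hcont⟩ := hcont (1 / 2) (by norm_num)
  obtain ⟨V, hV1, hV⟩ : ∃ V : ℝ, 1 ≤ V ∧ ∀ i, |(v i : ℝ)| + 1 ≤ V := by
    refine ⟨∑ i, |(v i : ℝ)| + 1, ?_, ?_⟩
    · have : 0 ≤ ∑ i, |(v i : ℝ)| := Finset.sum_nonneg fun _ _ => abs_nonneg _
      linarith
    · intro i
      have := Finset.single_le_sum (f := fun i => |(v i : ℝ)|) (fun _ _ => abs_nonneg _) (mem_univ i)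
      linarith
  obtain ⟨A, hA, happ⟩ := top_approx F V hV1
  refine ⟨⌈1 / δ⌉₊ + 1 + ⌈4 * A + 8⌉₊, ?_⟩
  intro Z hZ x hx
  have hZ1 : 1 / δ < Z := by
    have h1 := Nat.le_ceil (1 / δ)
    have h2 : ((⌈1 / δ⌉₊ + 1 : ℕ) : ℝ) ≤ Z := by exact_mod_cast (by omega : ⌈1 / δ⌉₊ + 1 ≤ Z)
    push_cast at h2
    linarith
  have hZ2 : 4 * A + 8 ≤ Z := by
    have h1 := Nat.le_ceil (4 * A + 8)
    have h2 : ((⌈4 * A + 8⌉₊ : ℕ) : ℝ) ≤ Z := by exact_mod_cast (by omega : ⌈4 * A + 8⌉₊ ≤ Z)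
    linarith
  have hZ0 : (0 : ℝ) < Z := by linarith
  have hZ3 : (1 : ℝ) ≤ Z := by linarith
  set S : ℝ := (Z : ℝ) ^ 2 with hS
  have hS1 : 1 ≤ S := by rw [hS]; exact one_le_pow₀ hZ3
  have hS0 : 0 < S := by linarith
  set z : Fin d → ℝ := fun i => (x i : ℝ) / S with hz
  have hxz : ∀ i, (x i : ℝ) = S * z i := fun i => by rw [hz]; field_simp
  have hdist : ∀ i, |z i - v i| ≤ 1 / Z := by
    intro i
    have h1 : (Z : ℝ) ^ 2 * v i < x i := by exact_mod_cast (hx i).1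
    have h2 : (x i : ℝ) ≤ (Z : ℝ) ^ 2 * v i + Z := by exact_mod_cast (hx i).2
    have h3 : z i - v i = (x i - S * v i) / S := by rw [hz]; field_simp
    rw [h3, abs_div, abs_of_pos hS0, div_le_div_iff₀ hS0 hZ0, abs_of_pos (by rw [hS]; linarith), hS]
    nlinarith
  have hzV : ∀ i, |z i| ≤ V := by
    intro i
    have h1 := hdist i
    have h2 : (1 : ℝ) / Z ≤ 1 := by rw [div_le_one hZ0]; exact hZ3
    have h3 := abs_sub_abs_le_abs_sub (z i) (v i)
    have h4 := hV i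
    linarith
  have htop : 1 / 2 ≤ |top F z| := by
    have h1 : dist z (fun i => (v i : ℝ)) < δ := by
      rw [dist_pi_lt_iff hδ]
      intro i
      rw [Real.dist_eq]
      refine lt_of_le_of_lt (hdist i) ?_
      rw [div_lt_iff₀ hZ0]
      rw [div_lt_iff₀ hδ] at hZ1
      linarith
    have h2 := hcont h1
    rw [Real.dist_eq] at h2
    have h3 := abs_sub_abs_le_abs_sub (top F fun i => (v i : ℝ)) (top F z)
    rw [abs_sub_comm] at h2
    linarith
  have h1 := happ S hS1 x z hxz hzV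
  set D := F.totalDegree with hDdef
  have h2 := abs_sub_abs_le_abs_sub (S ^ D * top F z) ((eval x F : ℤ) : ℝ)
  rw [abs_sub_comm] at h2
  have h3 : |S ^ D * top F z| = S ^ D * |top F z| := by
    rw [abs_mul, abs_of_pos (by positivity)]
  have hSD : S ≤ S ^ D := by
    calc S = S ^ 1 := (pow_one S).symm
      _ ≤ S ^ D := pow_le_pow_right₀ hS1 hD
  have hSDp : 0 < S ^ D := by positivity
  -- `|F(x)| S ≥ S ^ D (S/2 - A)`
  have h4 : S ^ D * (S / 2 - A) ≤ |((eval x F : ℤ) : ℝ)| * S := by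
    have h5 : (|S ^ D * top F z| - |((eval x F : ℤ) : ℝ)|) * S ≤ A * S ^ D :=
      (mul_le_mul_of_nonneg_right h2 hS0.le).trans h1
    rw [h3] at h5
    have h6 : S ^ D * (1 / 2) ≤ S ^ D * |top F z| := mul_le_mul_of_nonneg_left htop hSDp.le
    nlinarith
  have hSA : 2 * (Z : ℝ) ≤ S / 2 - A := by
    rw [hS]
    nlinarith
  have h5 : S * (2 * Z) ≤ |((eval x F : ℤ) : ℝ)| * S := by
    calc S * (2 * Z) ≤ S ^ D * (S / 2 - A) := mul_le_mul hSD hSA (by positivity) hSDp.le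
      _ ≤ _ := h4
  rw [mul_comm] at h5
  exact le_of_mul_le_mul_right h5 hS0

/-- finitely many polynomials -/
theorem far {d : ℕ} {ι : Type} [Fintype ι] (F : ι → MvPolynomial (Fin d) ℤ)
    (hF : ∀ j, ∀ c, F j ≠ C c) : ∃ v : Fin d → ℤ, ∃ Z₁ : ℕ, ∀ Z : ℕ, Z₁ ≤ Z → ∀ x : Fin d → ℤ,
      (∀ i, (Z : ℤ) ^ 2 * v i < x i ∧ x i ≤ (Z : ℤ) ^ 2 * v i + Z) →
      ∀ j, 2 * (Z : ℝ) ≤ |((eval x (F j) : ℤ) : ℝ)| := by
  classical
  have hF0 : ∀ j, F j ≠ 0 := fun j h => hF j 0 (by rw [h, map_zero])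
  obtain ⟨v, hv⟩ : ∃ v : Fin d → ℤ, eval v (∏ j, homogeneousComponent (F j).totalDegree (F j)) ≠ 0 := by
    by_contra hcon
    push Not at hcon
    have h1 : ∏ j, homogeneousComponent (F j).totalDegree (F j) = 0 :=
      MvPolynomial.funext fun x => by rw [hcon x, map_zero]
    rw [Finset.prod_eq_zero_iff] at h1
    obtain ⟨j, -, hj⟩ := h1
    exact top_ne (F j) (hF0 j) hj
  rw [map_prod, Finset.prod_ne_zero_iff] at hv
  choose Z₁ hZ₁ using fun j => far_one (F j) (hF j) v (hv j (mem_univ j))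
  refine ⟨v, ∑ j, Z₁ j, fun Z hZ x hx j => hZ₁ j Z ?_ x hx⟩
  exact (Finset.single_le_sum (f := Z₁) (fun _ _ => Nat.zero_le _) (mem_univ j)).trans hZ

/-- values at bounded points -/
theorem eval_le {d : ℕ} (F : MvPolynomial (Fin d) ℤ) : ∃ A : ℝ, 0 ≤ A ∧ ∀ X : ℝ, 1 ≤ X →
    ∀ x : Fin d → ℤ, (∀ i, |(x i : ℝ)| ≤ X) → |((eval x F : ℤ) : ℝ)| ≤ A * X ^ F.totalDegree := by
  refine ⟨∑ e ∈ F.support, |((F.coeff e : ℤ) : ℝ)|, Finset.sum_nonneg fun _ _ => abs_nonneg _, ?_⟩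
  intro X hX x hx
  rw [MvPolynomial.eval_eq']
  push_cast
  refine (Finset.abs_sum_le_sum_abs _ _).trans ?_
  rw [Finset.sum_mul]
  refine Finset.sum_le_sum fun e he => ?_
  rw [abs_mul]
  apply mul_le_mul_of_nonneg_left _ (abs_nonneg _)
  rw [Finset.abs_prod]
  have h1 : ∀ i : Fin d, |((x i : ℤ) : ℝ) ^ e i| ≤ X ^ e i := by
    intro i
    rw [abs_pow]
    exact pow_le_pow_left₀ (abs_nonneg _) (hx i) _
  refine (Finset.prod_le_prod (fun i _ => abs_nonneg _) (fun i _ => h1 i)).trans ?_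
  rw [Finset.prod_pow_eq_pow_sum]
  apply pow_le_pow_right₀ hX
  have h2 := MvPolynomial.le_totalDegree he
  rw [Finsupp.sum_fintype _ _ (fun _ => rfl)] at h2
  exact h2

end Pool.Agent.R433.SL
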