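import Pool.Agent.R433.SL.Box
import Pool.Agent.R433.SL.Far
import Pool.Agent.Y837.SW.Scale

/-! Record gaps around all the proper minors of integer matrices of a given nonzero determinant. -/

set_option autoImplicit false

namespace Pool.Agent.R433.SL

open Finset Matrix MvPolynomial Filter
open Pool.Agent.H256R2.SC (ff)

theorem ff_upper (K : ℝ) (hK : 0 < K) : ∃ X₀ : ℝ, ∀ X : ℝ, X₀ ≤ X → K * ff X ≤ X := by
  have h1 := (Real.isLittleO_pow_log_id_atTop (n := 3)).def (show 0 < 1 / K by positivity)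
  have hl := Real.tendsto_log_atTop
  have h2 : ∀ᶠ X : ℝ in atTop, 1 ≤ Real.log (Real.log (Real.log X)) :=
    (hl.comp (hl.comp hl)).eventually_ge_atTop 1
  have h3 : ∀ᶠ X : ℝ in atTop, 1 ≤ Real.log (Real.log X) := (hl.comp hl).eventually_ge_atTop 1
  have h4 : ∀ᶠ X : ℝ in atTop, 1 ≤ Real.log X := hl.eventually_ge_atTop 1
  obtain ⟨X₀, h⟩ := eventually_atTop.1 (h1.and (h2.and (h3.and (h4.and
    (eventually_ge_atTop (1 : ℝ))))))
  refine ⟨X₀, fun X hX => ?_⟩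
  obtain ⟨k1, k2, k3, k4, k5⟩ := h X hX
  have hle : ∀ y : ℝ, 1 ≤ y → Real.log y ≤ y := fun y hy =>
    (Real.log_le_sub_one_of_pos (by linarith)).trans (by linarith)
  set L := Real.log X with hL
  set t := Real.log L with ht
  set s := Real.log t with hs
  set u := Real.log s with hu
  have hu0 : 0 ≤ u := Real.log_nonneg k2
  have hus : u ≤ s := hle s k2
  have htL : t ≤ L := hle L k4
  have e1 : ff X = L * t ^ 2 * u / s ^ 2 := rfl
  have e2 : ff X ≤ L ^ 3 := by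
    rw [e1, div_le_iff₀ (by positivity)]
    have a1 : u ≤ s ^ 2 := by nlinarith
    have a2 : L * t ^ 2 ≤ L ^ 3 := by
      have : t ^ 2 ≤ L ^ 2 := pow_le_pow_left₀ (by linarith) htL 2
      calc L * t ^ 2 ≤ L * L ^ 2 := mul_le_mul_of_nonneg_left this (by linarith)
        _ = L ^ 3 := by ring
    exact mul_le_mul a2 a1 hu0 (by positivity)
  have e3 : L ^ 3 ≤ 1 / K * X := by
    have h6 : ‖L ^ 3‖ ≤ 1 / K * ‖X‖ := k1
    rwa [Real.norm_of_nonneg (by positivity), Real.norm_of_nonneg (by linarith)] at h6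
  calc K * ff X ≤ K * (1 / K * X) := mul_le_mul_of_nonneg_left (e2.trans e3) hK.le
    _ = X := by field_simp

theorem slmain (n q : ℕ) (hq : 0 < q) (A₀ : Matrix (Fin (n + 1)) (Fin (n + 1)) ℤ)
    (hA₀ : A₀.det ≠ 0) :
    ∃ c : ℝ, 0 < c ∧ ∃ Z₀ : ℝ, ∀ Z : ℕ, Z₀ ≤ Z → ∃ A : Matrix (Fin (n + 1)) (Fin (n + 1)) ℤ,
      A.det = A₀.det ∧ (∀ i j, |A i j| ≤ Z) ∧ (∀ i j, (q : ℤ) ∣ A i j - A₀ i j) ∧
      ∀ (k : ℕ) (f g : Fin k → Fin (n + 1)), 0 < k → k < n + 1 → StrictMono f → StrictMono g →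
        ∀ t : ℤ, |(t : ℝ) - ((A.submatrix f g).det : ℤ)| ≤ c * ff Z →
          ∃ p : ℕ, p.Prime ∧ (p : ℤ) ^ 10 ≤ |t| ∧ (p : ℤ) ∣ t := by
  classical
  obtain ⟨d, P, C, q', hC, hdet, hmod, hU, hz, hpb⟩ := paramN n q hq A₀ hA₀
  obtain ⟨c₁, hc₁, Z₀, hbox⟩ := main_box hC hU hz hpb
  obtain ⟨v, Z₁, hfar⟩ := far (polI P) (fun j c =>
    not_constN hC hU j.2.2.1 j.1.2 _ _ j.2.2.2.1.injective j.2.2.2.2.injective c)
  choose Aij hAij0 hAij using fun i j => eval_le (P i j)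
  obtain ⟨A, hA⟩ : ∃ A : ℝ, A = ∑ i, ∑ j, Aij i j := ⟨_, rfl⟩
  have hA0 : 0 ≤ A := by
    rw [hA]
    exact Finset.sum_nonneg fun i _ => Finset.sum_nonneg fun j _ => hAij0 i j
  have hAle : ∀ i j, Aij i j ≤ A := by
    intro i j
    have a4 := Finset.single_le_sum (f := fun j => Aij i j) (fun j _ => hAij0 i j) (mem_univ j)
    have a5 := Finset.single_le_sum (f := fun i => ∑ j, Aij i j)
      (fun i _ => Finset.sum_nonneg fun j _ => hAij0 i j) (mem_univ i)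
    rw [hA]
    linarith
  obtain ⟨T, hT⟩ : ∃ T : ℕ, T = ∑ i, ∑ j, (P i j).totalDegree := ⟨_, rfl⟩
  have hTle : ∀ i j, (P i j).totalDegree ≤ T := by
    intro i j
    have a4 := Finset.single_le_sum (f := fun j => (P i j).totalDegree)
      (fun j _ => Nat.zero_le _) (mem_univ j)
    have a5 := Finset.single_le_sum (f := fun i => ∑ j, (P i j).totalDegree)
      (fun i _ => Nat.zero_le _) (mem_univ i)
    rw [hT]
    exact a4.trans a5
  obtain ⟨V, hV⟩ : ∃ V : ℝ, V = 1 + ∑ i, |(v i : ℝ)| := ⟨_, rfl⟩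
  have hV1 : 1 ≤ V := by
    have : 0 ≤ ∑ i, |(v i : ℝ)| := Finset.sum_nonneg fun _ _ => abs_nonneg _
    rw [hV]
    linarith
  have hVle : ∀ i, |(v i : ℝ)| + 1 ≤ V := by
    intro i
    have := Finset.single_le_sum (f := fun i => |(v i : ℝ)|) (fun _ _ => abs_nonneg _) (mem_univ i)
    rw [hV]
    linarith
  obtain ⟨θ, hθ⟩ : ∃ θ : ℝ, θ = 1 / (2 * (2 * T + 1)) := ⟨_, rfl⟩
  have hT0 : (0 : ℝ) ≤ T := Nat.cast_nonneg T
  have hθ0 : 0 < θ := by rw [hθ]; positivity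
  have hθ1 : θ * (2 * (2 * T + 1)) = 1 := by rw [hθ]; field_simp
  have hθ2 : θ ≤ 1 := by nlinarith
  have hθ3 : θ * (2 * T) ≤ 1 / 2 := by nlinarith
  obtain ⟨X₁, hX₁⟩ := Pool.Agent.Y837.SW.ff_floor θ hθ0 hθ2
  obtain ⟨X₂, hX₂⟩ := ff_upper c₁ hc₁
  have ev1 : ∀ᶠ X : ℝ in atTop, max (max Z₀ Z₁) (max X₂ 1) + 1 ≤ X ^ θ :=
    (tendsto_rpow_atTop hθ0).eventually_ge_atTop _
  have ev2 : ∀ᶠ X : ℝ in atTop, A * V ^ T ≤ X ^ (1 / 2 : ℝ) :=
    (tendsto_rpow_atTop (by norm_num)).eventually_ge_atTop _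
  obtain ⟨X₃, hX₃⟩ := eventually_atTop.1 (ev1.and (ev2.and (eventually_ge_atTop (1 : ℝ))))
  refine ⟨c₁ * (θ / 16), by positivity, max X₁ X₃, fun Z hZ => ?_⟩
  have hZa : X₁ ≤ (Z : ℝ) := (le_max_left _ _).trans hZ
  have hZb : X₃ ≤ (Z : ℝ) := (le_max_right _ _).trans hZ
  obtain ⟨k1, k2, k3⟩ := hX₃ Z hZb
  obtain ⟨Y, hY⟩ : ∃ Y : ℕ, Y = ⌊(Z : ℝ) ^ θ⌋₊ := ⟨_, rfl⟩
  have k4 := hX₁ Z hZa
  rw [← hY] at k4
  have hYle : (Y : ℝ) ≤ (Z : ℝ) ^ θ := by rw [hY]; exact Nat.floor_le (by positivity)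
  have hYge : max (max Z₀ Z₁) (max X₂ 1) ≤ (Y : ℝ) := by
    have : (Z : ℝ) ^ θ < (Y : ℝ) + 1 := by rw [hY]; exact Nat.lt_floor_add_one _
    linarith
  have hYZ₀ : Z₀ ≤ (Y : ℝ) := ((le_max_left _ _).trans (le_max_left _ _)).trans hYge
  have hYZ₁ : (Z₁ : ℝ) ≤ (Y : ℝ) := ((le_max_right _ _).trans (le_max_left _ _)).trans hYge
  have hYX₂ : X₂ ≤ (Y : ℝ) := ((le_max_left _ _).trans (le_max_right _ _)).trans hYge
  have hY1 : (1 : ℝ) ≤ Y := ((le_max_right _ _).trans (le_max_right _ _)).trans hYge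
  obtain ⟨x, hx1, hx2⟩ := hbox Y hYZ₀ (fun i => (Y : ℤ) ^ 2 * v i)
  have hlarge := hfar Y (by exact_mod_cast hYZ₁) x hx1
  have hxb : ∀ i, |(x i : ℝ)| ≤ V * (Y : ℝ) ^ 2 := by
    intro i
    have h1 : (Y : ℝ) ^ 2 * v i < x i := by exact_mod_cast (hx1 i).1
    have h2 : (x i : ℝ) ≤ (Y : ℝ) ^ 2 * v i + Y := by exact_mod_cast (hx1 i).2
    have h3 := hVle i
    have h4 := abs_le.1 (le_refl |(v i : ℝ)|)
    have h5 : (Y : ℝ) ≤ (Y : ℝ) ^ 2 := by nlinarith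
    have h6 : (0 : ℝ) ≤ (Y : ℝ) ^ 2 := by positivity
    rw [abs_le]
    constructor <;> nlinarith
  refine ⟨P.map (eval x), hdet x, ?_, ?_, ?_⟩
  · intro i j
    have h1 := hAij i j (V * (Y : ℝ) ^ 2) (by nlinarith [one_le_pow₀ hY1 (n := 2)]) x hxb
    have hVY : 1 ≤ V * (Y : ℝ) ^ 2 := by nlinarith [one_le_pow₀ hY1 (n := 2)]
    have h2 : |((eval x (P i j) : ℤ) : ℝ)| ≤ Z := by
      calc |((eval x (P i j) : ℤ) : ℝ)| ≤ Aij i j * (V * (Y : ℝ) ^ 2) ^ (P i j).totalDegree := h1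
        _ ≤ A * (V * (Y : ℝ) ^ 2) ^ T :=
            mul_le_mul (hAle i j) (pow_le_pow_right₀ hVY (hTle i j)) (by positivity) hA0
        _ = A * V ^ T * (Y : ℝ) ^ (2 * T) := by rw [mul_pow, ← pow_mul]; ring
        _ ≤ (Z : ℝ) ^ (1 / 2 : ℝ) * (Z : ℝ) ^ (1 / 2 : ℝ) := by
            refine mul_le_mul k2 ?_ (by positivity) (by positivity)
            calc (Y : ℝ) ^ (2 * T) ≤ ((Z : ℝ) ^ θ) ^ (2 * T) :=
                  pow_le_pow_left₀ (by linarith) hYle _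
              _ = (Z : ℝ) ^ (θ * (2 * T)) := by
                  rw [← Real.rpow_natCast, ← Real.rpow_mul (by linarith)]
                  push_cast
                  rfl
              _ ≤ (Z : ℝ) ^ (1 / 2 : ℝ) := Real.rpow_le_rpow_of_exponent_le k3 hθ3
        _ = Z := by
            rw [← Real.rpow_add (by linarith)]
            norm_num
    have h3 : (P.map (eval x)) i j = eval x (P i j) := rfl
    rw [h3]
    have h4 : ((|eval x (P i j)| : ℤ) : ℝ) ≤ ((Z : ℤ) : ℝ) := by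
      push_cast
      exact h2
    exact_mod_cast h4
  · intro i j
    exact hmod x i j
  · intro k f g hk0 hk hf hg t ht
    have h1 : ((P.map (eval x)).submatrix f g).det = eval x (pol P f g) :=
      (RingHom.map_det (eval x) (P.submatrix f g)).symm
    rw [h1] at ht
    let j : Idx (n + 1) := ⟨⟨k, hk⟩, ⟨(f, g), hk0, hf, hg⟩⟩
    have ht1 : |(t : ℝ) - ((eval x (polI P j) : ℤ) : ℝ)| ≤ c₁ * ff Y := by
      refine ht.trans ?_
      calc c₁ * (θ / 16) * ff Z = c₁ * (θ / 16 * ff Z) := by ring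
        _ ≤ c₁ * ff Y := mul_le_mul_of_nonneg_left k4 hc₁.le
    obtain ⟨p, hp1, hp2, hp3⟩ := hx2 j t ht1
    have h2 := hlarge j
    have h3 := hX₂ Y hYX₂
    have h4 : (Y : ℝ) ≤ |(t : ℝ)| := by
      have h5 := abs_sub_abs_le_abs_sub ((eval x (polI P j) : ℤ) : ℝ) (t : ℝ)
      rw [abs_sub_comm] at h5
      linarith
    refine ⟨p, hp1, ?_, hp3⟩
    have h5 : (p : ℝ) ^ 10 ≤ Y := by
      calc (p : ℝ) ^ 10 ≤ ((Y : ℝ) ^ (1 / 10 : ℝ)) ^ 10 :=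
            pow_le_pow_left₀ (Nat.cast_nonneg _) hp2 _
        _ = Y := by
            rw [← Real.rpow_natCast, ← Real.rpow_mul (by linarith)]
            norm_num
    have h6 : (((p : ℤ) ^ 10 : ℤ) : ℝ) ≤ ((|t| : ℤ) : ℝ) := by
      push_cast
      exact h5.trans h4
    exact_mod_cast h6

end Pool.Agent.R433.SL
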