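import Pool.Agent.R433.SL.Stab

/-! Polynomial parametrisations of the special linear group, almost uniform modulo the primes. -/

set_option autoImplicit false
set_option linter.unusedSectionVars false

namespace Pool.Agent.R433.SL

open Finset Matrix MvPolynomial

open scoped Classical in
theorem low_equiv {S S' G : Type} [Fintype S] [Fintype S'] [Fintype G] {X : S → G} {ε : ℝ}
    (h : Low X ε) (e : S' ≃ S) : Low (fun s => X (e s)) ε := by
  intro g
  have h1 := h g
  rw [Fintype.card_congr e]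
  have h2 : (univ.filter fun s => X (e s) = g).card = (univ.filter fun s => X s = g).card :=
    Finset.card_equiv e (fun i => by simp)
  rw [h2]
  exact h1

open scoped Classical in
theorem low_target {S G G' : Type} [Fintype S] [Fintype G] [Fintype G'] {X : S → G'} {ε : ℝ}
    (Φ : G' ≃ G) (h : Low (fun s => Φ (X s)) ε) : Low X ε := by
  intro g
  have h1 := h (Φ g)
  rw [Fintype.card_congr Φ]
  have h2 : (univ.filter fun s => X s = g) = (univ.filter fun s => Φ (X s) = Φ g) :=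
    Finset.filter_congr fun s _ => (Φ.injective.eq_iff).symm
  rw [h2]
  exact h1

theorem low_mono {S G : Type} [Fintype S] [Fintype G] {X : S → G} {ε ε' : ℝ} (h : Low X ε)
    (he : ε ≤ ε') : Low X ε' := fun g =>
  (mul_le_mul_of_nonneg_right (by linarith) (Nat.cast_nonneg _)).trans (h g)

section blocks

variable {κ R S : Type} [Fintype κ] [DecidableEq κ] [CommRing R] [CommRing S]

theorem Lm_map (φ : R →+* S) (c : κ → R) : (Lm c).map φ = Lm (fun k => φ (c k)) := by
  rw [Lm, Lm, fromBlocks_map]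
  congr 1
  · ext i j; simp
  · ext i j; simp
  · ext i j; simp [Matrix.one_apply, apply_ite φ]

theorem Um_map (φ : R →+* S) (c : κ → R) : (Um c).map φ = Um (fun k => φ (c k)) := by
  rw [Um, Um, fromBlocks_map]
  congr 1
  · ext i j; simp
  · ext i j; simp
  · ext i j; simp [Matrix.one_apply, apply_ite φ]

theorem Bm_map (φ : R →+* S) (B : Matrix κ κ R) : (Bm B).map φ = Bm (B.map φ) := by
  rw [Bm, Bm, fromBlocks_map]
  congr 1
  · ext i j; simp
  · ext i j; simp
  · ext i j; simp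

theorem Xm_map (φ : R →+* S) (c u c' : κ → R) :
    (Xm c u c').map φ = Xm (fun k => φ (c k)) (fun k => φ (u k)) (fun k => φ (c' k)) := by
  rw [Xm, Matrix.map_mul, Matrix.map_mul, Lm_map, Um_map, Lm_map, Xm]

theorem Lm_zero : Lm (fun _ : κ => (0 : R)) = 1 := by
  rw [Lm, ← fromBlocks_one]
  congr 1

theorem Um_zero : Um (fun _ : κ => (0 : R)) = 1 := by
  rw [Um, ← fromBlocks_one]
  congr 1

theorem Bm_one : Bm (1 : Matrix κ κ R) = 1 := by
  rw [Bm, fromBlocks_one]

end blocks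

/-- there is a polynomial parametrisation which is almost uniform modulo all primes -/
def Good (κ : Type) [Fintype κ] [DecidableEq κ] : Prop :=
  ∃ (ι : Type) (_ : Fintype ι) (_ : DecidableEq ι) (A : Matrix κ κ (MvPolynomial ι ℤ)) (C : ℝ),
    0 ≤ C ∧ A.det = 1 ∧
    A.map (eval (0 : ι → ℤ)) = 1 ∧
    ∀ (p : ℕ) [Fact p.Prime] (X : (ι → ZMod p) → SpecialLinearGroup κ (ZMod p)),
      (∀ x, (X x).1 = A.map (aeval x)) → Low X (C / p)

/-- evaluation of a matrix of polynomials of determinant one -/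
noncomputable def sp {κ ι R : Type} [Fintype κ] [DecidableEq κ] [CommRing R]
    (A : Matrix κ κ (MvPolynomial ι ℤ)) (h : A.det = 1) (y : ι → R) : SpecialLinearGroup κ R :=
  ⟨A.map (aeval y), by
    have e : (A.map (aeval y)).det = aeval y A.det :=
      (AlgHom.map_det (aeval y : MvPolynomial ι ℤ →ₐ[ℤ] R) A).symm
    rw [e, h, map_one]⟩

theorem good_unit : Good Unit := by
  refine ⟨Empty, inferInstance, inferInstance, 1, 0, le_rfl, by simp, ?_, ?_⟩
  · exact Matrix.map_one _ (map_zero _) (map_one _)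
  · intro p hp X hX g
    have hg : ∀ a : SpecialLinearGroup Unit (ZMod p), a = g := by
      intro a
      apply Subtype.ext
      ext i j
      have h1 := a.2
      have h2 := g.2
      rw [Matrix.det_unique] at h1 h2
      rw [show i = default from rfl, show j = default from rfl, h1, h2]
    have h1 : ∀ inst : DecidablePred fun s => X s = g,
        @Finset.filter _ (fun s => X s = g) inst univ = univ := fun inst =>
      Finset.filter_true_of_mem fun s _ => hg _
    rw [h1, Finset.card_univ, zero_div, sub_zero, one_mul]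
    have h2 : (1 : ℝ) ≤ Fintype.card (SpecialLinearGroup Unit (ZMod p)) := by
      exact_mod_cast Fintype.card_pos (α := SpecialLinearGroup Unit (ZMod p))
    exact le_mul_of_one_le_left (Nat.cast_nonneg _) h2

theorem good_step {κ : Type} [Fintype κ] [DecidableEq κ] [Nonempty κ] (h : Good κ) :
    Good (Unit ⊕ κ) := by
  obtain ⟨ι, hι, hι', A, C, hC, hdet, h0, hA⟩ := h
  let r : ι → (κ ⊕ κ ⊕ κ) ⊕ (κ ⊕ ι) := fun i => Sum.inr (Sum.inr i)
  let a₁ : κ → MvPolynomial ((κ ⊕ κ ⊕ κ) ⊕ (κ ⊕ ι)) ℤ := fun k => X (Sum.inl (Sum.inl k))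
  let a₂ : κ → MvPolynomial ((κ ⊕ κ ⊕ κ) ⊕ (κ ⊕ ι)) ℤ := fun k => X (Sum.inl (Sum.inr (Sum.inl k)))
  let a₃ : κ → MvPolynomial ((κ ⊕ κ ⊕ κ) ⊕ (κ ⊕ ι)) ℤ := fun k => X (Sum.inl (Sum.inr (Sum.inr k)))
  let a₄ : κ → MvPolynomial ((κ ⊕ κ ⊕ κ) ⊕ (κ ⊕ ι)) ℤ := fun k => X (Sum.inr (Sum.inl k))
  let A' := Xm a₁ a₂ a₃ * (Bm (A.map (rename r)) * Um a₄)
  have hmap : ∀ {R : Type} [CommRing R] (x : ((κ ⊕ κ ⊕ κ) ⊕ (κ ⊕ ι)) → R),
      A'.map (aeval x) = Xm (fun k => x (Sum.inl (Sum.inl k)))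
        (fun k => x (Sum.inl (Sum.inr (Sum.inl k)))) (fun k => x (Sum.inl (Sum.inr (Sum.inr k)))) *
        (Bm (A.map (aeval fun i => x (Sum.inr (Sum.inr i)))) *
          Um (fun k => x (Sum.inr (Sum.inl k)))) := by
    intro R _ x
    obtain ⟨φ, hφ⟩ : ∃ φ : MvPolynomial ((κ ⊕ κ ⊕ κ) ⊕ (κ ⊕ ι)) ℤ →+* R, ∀ F, φ F = aeval x F :=
      ⟨(aeval x : MvPolynomial ((κ ⊕ κ ⊕ κ) ⊕ (κ ⊕ ι)) ℤ →ₐ[ℤ] R).toRingHom, fun _ => rfl⟩
    have e : A'.map (aeval x) = A'.map φ := by
      ext i j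
      rw [Matrix.map_apply, Matrix.map_apply, hφ]
    have e2 : (A.map (rename r)).map φ = A.map (aeval fun i => x (Sum.inr (Sum.inr i))) := by
      ext i j
      rw [Matrix.map_apply, Matrix.map_apply, Matrix.map_apply, hφ, aeval_rename]
      rfl
    rw [e, Matrix.map_mul, Matrix.map_mul, Xm_map, Bm_map, Um_map, e2]
    simp only [a₁, a₂, a₃, a₄, hφ, aeval_X]
  refine ⟨(κ ⊕ κ ⊕ κ) ⊕ (κ ⊕ ι), inferInstance, inferInstance, A', C + 2, by positivity, ?_, ?_, ?_⟩
  · change (Xm a₁ a₂ a₃ * (Bm (A.map (rename r)) * Um a₄)).det = 1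
    rw [det_mul, det_mul, det_Xm, det_Bm, det_Um, one_mul, mul_one]
    have e : (A.map (rename r)).det = rename r A.det := (AlgHom.map_det (rename r) A).symm
    rw [e, hdet, map_one]
  · have h1 := hmap (fun _ => (0 : ℤ))
    have e1 : A'.map (eval (0 : ((κ ⊕ κ ⊕ κ) ⊕ (κ ⊕ ι)) → ℤ)) = A'.map (aeval fun _ => (0 : ℤ)) := by
      ext i j
      rw [Matrix.map_apply, Matrix.map_apply]
      rfl
    have e2 : A.map (aeval fun _ => (0 : ℤ)) = 1 := by
      rw [← h0]
      ext i j
      rw [Matrix.map_apply, Matrix.map_apply]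
      rfl
    rw [e1, h1, e2, Xm, Lm_zero, Um_zero, Bm_one]
    simp
  · intro p hp X' hX'
    have hL : Low (fun y : ι → ZMod p => sp A hdet y) (C / p) := hA p _ (fun _ => rfl)
    have hL2 := step_low (by positivity) hL
    let e : (((κ ⊕ κ ⊕ κ) ⊕ (κ ⊕ ι)) → ZMod p) ≃
        ((κ → ZMod p) × (κ → ZMod p) × (κ → ZMod p)) × ((κ → ZMod p) × (ι → ZMod p)) :=
      (Equiv.sumArrowEquivProdArrow (κ ⊕ κ ⊕ κ) (κ ⊕ ι) (ZMod p)).trans
        (Equiv.prodCongr ((Equiv.sumArrowEquivProdArrow κ (κ ⊕ κ) (ZMod p)).trans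
          (Equiv.prodCongr (Equiv.refl _) (Equiv.sumArrowEquivProdArrow κ κ (ZMod p))))
          (Equiv.sumArrowEquivProdArrow κ ι (ZMod p)))
    have hL3 := low_equiv hL2 e
    have hfin : (fun s => stepMap (fun y : ι → ZMod p => sp A hdet y) (e s)) = X' := by
      funext x
      apply Subtype.ext
      rw [hX', hmap x]
      rfl
    rw [hfin] at hL3
    refine low_mono hL3 (le_of_eq ?_)
    rw [ZMod.card]
    ring

theorem good_equiv {κ κ' : Type} [Fintype κ] [DecidableEq κ] [Fintype κ'] [DecidableEq κ']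
    (e : κ' ≃ κ) (h : Good κ) : Good κ' := by
  obtain ⟨ι, hι, hι', A, C, hC, hdet, h0, hA⟩ := h
  refine ⟨ι, hι, hι', A.submatrix e e, C, hC, ?_, ?_, ?_⟩
  · rw [det_submatrix_equiv_self, hdet]
  · have : (A.submatrix e e).map (eval (0 : ι → ℤ)) = (A.map (eval (0 : ι → ℤ))).submatrix e e := rfl
    rw [this, h0, submatrix_one_equiv]
  · intro p hp X hX
    let Φ : SpecialLinearGroup κ' (ZMod p) ≃ SpecialLinearGroup κ (ZMod p) :=
      { toFun := fun g => ⟨g.1.submatrix e.symm e.symm, by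
          rw [det_submatrix_equiv_self]; exact g.2⟩
        invFun := fun g => ⟨g.1.submatrix e e, by rw [det_submatrix_equiv_self]; exact g.2⟩
        left_inv := fun g => by
          apply Subtype.ext
          change (g.1.submatrix e.symm e.symm).submatrix e e = g.1
          ext i j
          simp
        right_inv := fun g => by
          apply Subtype.ext
          change (g.1.submatrix e e).submatrix e.symm e.symm = g.1
          ext i j
          simp }
    refine low_target Φ (hA p (fun x => Φ (X x)) fun x => ?_)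
    change (X x).1.submatrix e.symm e.symm = _
    rw [hX]
    ext i j
    simp

theorem good_fin (n : ℕ) : Good (Fin (n + 1)) := by
  induction n with
  | zero =>
    have e : Fin (0 + 1) ≃ Unit := Fintype.equivOfCardEq (by simp)
    exact good_equiv e good_unit
  | succ n ih =>
    have e : Fin (n + 1 + 1) ≃ Unit ⊕ Fin (n + 1) := Fintype.equivOfCardEq (by simp; ring)
    exact good_equiv e (good_step ih)

/-- The final parametrisation: a class of matrices modulo `q`. -/
theorem param (n : ℕ) (q : ℕ) (hq : 0 < q) (A₀ : SpecialLinearGroup (Fin (n + 1)) ℤ) :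
    ∃ (d : ℕ) (P : Matrix (Fin (n + 1)) (Fin (n + 1)) (MvPolynomial (Fin d) ℤ)) (C : ℝ), 0 ≤ C ∧
      P.det = 1 ∧ (∀ x : Fin d → ℤ, ∀ i j, (q : ℤ) ∣ eval x (P i j) - A₀.1 i j) ∧
      ∀ (p : ℕ) [Fact p.Prime], q < p →
        ∀ X : (Fin d → ZMod p) → SpecialLinearGroup (Fin (n + 1)) (ZMod p),
          (∀ x, (X x).1 = P.map (aeval x)) → Low X (C / p ^ 2) := by
  obtain ⟨ι, hι, hι', A, C, hC, hdet, h0, hA⟩ := good_fin n
  classical
  let e : ι ⊕ ι ≃ Fin (Fintype.card (ι ⊕ ι)) := Fintype.equivFin _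
  let ψ₁ : MvPolynomial ι ℤ →ₐ[ℤ] MvPolynomial (Fin (Fintype.card (ι ⊕ ι))) ℤ :=
    aeval fun i => MvPolynomial.C (q : ℤ) * X (e (Sum.inl i))
  let ψ₂ : MvPolynomial ι ℤ →ₐ[ℤ] MvPolynomial (Fin (Fintype.card (ι ⊕ ι))) ℤ :=
    aeval fun i => MvPolynomial.C (q : ℤ) * X (e (Sum.inr i))
  let P : Matrix (Fin (n + 1)) (Fin (n + 1)) (MvPolynomial (Fin (Fintype.card (ι ⊕ ι))) ℤ) :=
    A₀.1.map MvPolynomial.C * (A.map ψ₁ * A.map ψ₂)
  have hmap : ∀ {R : Type} [CommRing R] (x : Fin (Fintype.card (ι ⊕ ι)) → R),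
      P.map (aeval x) = A₀.1.map (Int.castRingHom R) *
        (A.map (aeval fun i => ((q : ℕ) : R) * x (e (Sum.inl i))) *
          A.map (aeval fun i => ((q : ℕ) : R) * x (e (Sum.inr i)))) := by
    intro R _ x
    obtain ⟨φ, hφ⟩ : ∃ φ : MvPolynomial (Fin (Fintype.card (ι ⊕ ι))) ℤ →+* R, ∀ F, φ F = aeval x F :=
      ⟨(aeval x : MvPolynomial (Fin (Fintype.card (ι ⊕ ι))) ℤ →ₐ[ℤ] R).toRingHom, fun _ => rfl⟩
    have e1 : P.map (aeval x) = P.map φ := by
      ext i j
      rw [Matrix.map_apply, Matrix.map_apply, hφ]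
    have e2 : (A₀.1.map (MvPolynomial.C : ℤ → MvPolynomial (Fin (Fintype.card (ι ⊕ ι))) ℤ)).map φ =
        A₀.1.map (Int.castRingHom R) := by
      ext i j
      rw [Matrix.map_apply, Matrix.map_apply, Matrix.map_apply, hφ, aeval_C]
      rfl
    have e3 : (A.map ψ₁).map φ = A.map (aeval fun i => ((q : ℕ) : R) * x (e (Sum.inl i))) := by
      ext i j
      rw [Matrix.map_apply, Matrix.map_apply, Matrix.map_apply, hφ]
      change (aeval x : MvPolynomial _ ℤ →ₐ[ℤ] R) (aeval _ (A i j)) = _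
      rw [← AlgHom.comp_apply, comp_aeval]
      congr 2
      funext i
      rw [map_mul, aeval_C, aeval_X]
      simp
    have e4 : (A.map ψ₂).map φ = A.map (aeval fun i => ((q : ℕ) : R) * x (e (Sum.inr i))) := by
      ext i j
      rw [Matrix.map_apply, Matrix.map_apply, Matrix.map_apply, hφ]
      change (aeval x : MvPolynomial _ ℤ →ₐ[ℤ] R) (aeval _ (A i j)) = _
      rw [← AlgHom.comp_apply, comp_aeval]
      congr 2
      funext i
      rw [map_mul, aeval_C, aeval_X]
      simp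
    rw [e1, Matrix.map_mul, Matrix.map_mul, e2, e3, e4]
  refine ⟨Fintype.card (ι ⊕ ι), P, C ^ 2, by positivity, ?_, ?_, ?_⟩
  · have e1 : (A₀.1.map (MvPolynomial.C : ℤ → MvPolynomial (Fin (Fintype.card (ι ⊕ ι))) ℤ)).det = 1 := by
      have : (A₀.1.map (MvPolynomial.C : ℤ → MvPolynomial (Fin (Fintype.card (ι ⊕ ι))) ℤ)).det =
          MvPolynomial.C A₀.1.det :=
        (RingHom.map_det (MvPolynomial.C : ℤ →+* MvPolynomial (Fin (Fintype.card (ι ⊕ ι))) ℤ) A₀.1).symm
      rw [this, A₀.2, map_one]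
    have e2 : (A.map ψ₁).det = 1 := by
      have : (A.map ψ₁).det = ψ₁ A.det := (AlgHom.map_det ψ₁ A).symm
      rw [this, hdet, map_one]
    have e3 : (A.map ψ₂).det = 1 := by
      have : (A.map ψ₂).det = ψ₂ A.det := (AlgHom.map_det ψ₂ A).symm
      rw [this, hdet, map_one]
    change (A₀.1.map MvPolynomial.C * (A.map ψ₁ * A.map ψ₂)).det = 1
    rw [det_mul, det_mul, e1, e2, e3, one_mul, one_mul]
  · intro x i j
    rw [← ZMod.intCast_zmod_eq_zero_iff_dvd _ q]
    have h1 := hmap (R := ZMod q) (fun i => ((x i : ℤ) : ZMod q))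
    have e2 : A.map (aeval (R := ℤ) (fun _ : ι => (0 : ZMod q))) = 1 := by
      have e3 : A.map (aeval (R := ℤ) (fun _ : ι => (0 : ZMod q))) =
          (A.map (eval (0 : ι → ℤ))).map (Int.castRingHom (ZMod q)) := by
        ext i j
        rw [Matrix.map_apply, Matrix.map_apply, Matrix.map_apply, MvPolynomial.eval,
          MvPolynomial.coe_eval₂Hom, MvPolynomial.hom_eval₂, MvPolynomial.aeval_def]
        congr 1
        funext i
        simp
      rw [e3, h0]
      exact Matrix.map_one _ (map_zero _) (map_one _)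
    simp only [CharP.cast_eq_zero, zero_mul] at h1
    rw [e2, mul_one, mul_one] at h1
    have h2 := congrFun (congrFun h1 i) j
    rw [Matrix.map_apply, Matrix.map_apply] at h2
    push_cast
    have h3 : ((eval x (P i j) : ℤ) : ZMod q) = aeval (fun i => ((x i : ℤ) : ZMod q)) (P i j) := by
      change Int.castRingHom (ZMod q) (eval x (P i j)) = _
      rw [MvPolynomial.aeval_def, MvPolynomial.eval, MvPolynomial.coe_eval₂Hom,
        MvPolynomial.hom_eval₂]
      congr 1
    rw [h3, h2]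
    simp
  · intro p hp hqp X hX
    have hL : Low (fun y : ι → ZMod p => sp A hdet y) (C / p) := hA p _ (fun _ => rfl)
    have hL2 := low_mul hL hL
    have hq0 : ((q : ℕ) : ZMod p) ≠ 0 := by
      intro h
      rw [ZMod.natCast_eq_zero_iff] at h
      exact absurd (Nat.le_of_dvd hq h) (by omega)
    let E : (Fin (Fintype.card (ι ⊕ ι)) → ZMod p) ≃ (ι → ZMod p) × (ι → ZMod p) :=
      ((Equiv.arrowCongr e.symm (Equiv.mulLeft₀ ((q : ℕ) : ZMod p) hq0))).trans
        (Equiv.sumArrowEquivProdArrow ι ι (ZMod p))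
    have hL3 := low_equiv hL2 E
    let g₀ : SpecialLinearGroup (Fin (n + 1)) (ZMod p) := ⟨A₀.1.map (Int.castRingHom (ZMod p)), by
      have : (A₀.1.map (Int.castRingHom (ZMod p))).det = Int.castRingHom (ZMod p) A₀.1.det :=
        (RingHom.map_det (Int.castRingHom (ZMod p)) A₀.1).symm
      rw [this, A₀.2, map_one]⟩
    refine low_target (Equiv.mulLeft g₀⁻¹) ?_
    have hfin : (fun s => (Equiv.mulLeft g₀⁻¹) (X s)) = fun s : Fin (Fintype.card (ι ⊕ ι)) → ZMod p =>
        sp A hdet (E s).1 * sp A hdet (E s).2 := by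
      funext x
      rw [Equiv.coe_mulLeft, inv_mul_eq_iff_eq_mul]
      apply Subtype.ext
      rw [hX, hmap x]
      rfl
    rw [hfin]
    refine low_mono hL3 (le_of_eq ?_)
    ring

end Pool.Agent.R433.SL
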