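import Mathlib

/-! Maps to finite groups which take every value almost as often as on average. -/

set_option autoImplicit false

namespace Pool.Agent.R433.SL

open Finset

open scoped Classical in
/-- every element of `G` is taken at least `1 - ε` times the mean number of times -/
def Low {S G : Type} [Fintype S] [Fintype G] (X : S → G) (ε : ℝ) : Prop :=
  ∀ g, (1 - ε) * Fintype.card S ≤ Fintype.card G * ((univ.filter fun s => X s = g).card : ℝ)

open scoped Classical in
theorem low_mul {S T G : Type} [Fintype S] [Fintype T] [Fintype G] [Group G] {X : S → G} {Y : T → G}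
    {ε₁ ε₂ : ℝ} (hX : Low X ε₁) (hY : Low Y ε₂) : Low (fun a : S × T => X a.1 * Y a.2) (ε₁ * ε₂) := by
  intro g
  have hG : (0 : ℝ) < Fintype.card G := by exact_mod_cast Fintype.card_pos
  set N₁ : G → ℝ := fun h => ((univ.filter fun s => X s = h).card : ℝ) with hN₁
  set N₂ : G → ℝ := fun h => ((univ.filter fun t => Y t = h).card : ℝ) with hN₂
  have h12 : ((univ.filter fun a : S × T => X a.1 * Y a.2 = g).card : ℝ) =
      ∑ h, N₁ h * N₂ (h⁻¹ * g) := by
    have e1 : (univ.filter fun a : S × T => X a.1 * Y a.2 = g).card =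
        ∑ s : S, (univ.filter fun t => Y t = (X s)⁻¹ * g).card := by
      rw [Finset.card_filter, ← Finset.univ_product_univ, Finset.sum_product]
      refine Finset.sum_congr rfl fun s _ => ?_
      rw [Finset.card_filter]
      refine Finset.sum_congr rfl fun t _ => ?_
      congr 1
      exact propext ⟨fun h => by rw [← h]; group, fun h => by rw [h]; group⟩
    rw [e1]
    push_cast
    have e2 : ∀ φ : G → ℝ, ∑ s : S, φ (X s) = ∑ h, N₁ h * φ h := by
      intro φ
      rw [← Finset.sum_fiberwise (s := (univ : Finset S)) (g := X)]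
      refine Finset.sum_congr rfl fun h _ => ?_
      rw [Finset.sum_congr rfl (g := fun _ => φ h) (fun s hs => by rw [(mem_filter.1 hs).2])]
      rw [Finset.sum_const, nsmul_eq_mul]
    exact e2 fun h => N₂ (h⁻¹ * g)
  have hS : ∑ h, N₁ h = Fintype.card S := by
    rw [hN₁]
    have := Finset.card_eq_sum_card_fiberwise (f := X) (s := (univ : Finset S))
      (t := (univ : Finset G)) (fun _ _ => mem_univ _)
    rw [← Finset.card_univ, this]
    push_cast
    rfl
  have hT : ∑ h, N₂ h = Fintype.card T := by
    rw [hN₂]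
    have := Finset.card_eq_sum_card_fiberwise (f := Y) (s := (univ : Finset T))
      (t := (univ : Finset G)) (fun _ _ => mem_univ _)
    rw [← Finset.card_univ, this]
    push_cast
    rfl
  have hT' : ∑ h, N₂ (h⁻¹ * g) = Fintype.card T := by
    rw [← hT]
    exact Fintype.sum_equiv ((Equiv.inv G).trans (Equiv.mulRight g)) _ _ (fun h => rfl)
  set a₁ : ℝ := (1 - ε₁) * Fintype.card S / Fintype.card G with ha₁
  set a₂ : ℝ := (1 - ε₂) * Fintype.card T / Fintype.card G with ha₂
  have h1 : ∀ h, a₁ ≤ N₁ h := fun h => by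
    rw [ha₁, div_le_iff₀ hG, mul_comm (N₁ h)]
    exact hX h
  have h2 : ∀ h, a₂ ≤ N₂ h := fun h => by
    rw [ha₂, div_le_iff₀ hG, mul_comm (N₂ h)]
    exact hY h
  have h3 : 0 ≤ ∑ h, (N₁ h - a₁) * (N₂ (h⁻¹ * g) - a₂) :=
    Finset.sum_nonneg fun h _ => mul_nonneg (sub_nonneg.2 (h1 h)) (sub_nonneg.2 (h2 _))
  have h4 : ∑ h, (N₁ h - a₁) * (N₂ (h⁻¹ * g) - a₂) =
      ∑ h, N₁ h * N₂ (h⁻¹ * g) - a₂ * Fintype.card S - a₁ * Fintype.card T +
        Fintype.card G * (a₁ * a₂) := by
    have : ∀ h, (N₁ h - a₁) * (N₂ (h⁻¹ * g) - a₂) =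
        N₁ h * N₂ (h⁻¹ * g) - a₂ * N₁ h - a₁ * N₂ (h⁻¹ * g) + a₁ * a₂ := fun h => by ring
    simp_rw [this]
    rw [Finset.sum_add_distrib, Finset.sum_sub_distrib, Finset.sum_sub_distrib, ← Finset.mul_sum,
      ← Finset.mul_sum, hS, hT', Finset.sum_const, Finset.card_univ, nsmul_eq_mul]
  rw [h4, ← h12] at h3
  have h5 : Fintype.card G * a₁ = (1 - ε₁) * Fintype.card S := by
    rw [ha₁]; field_simp
  have h6 : Fintype.card G * a₂ = (1 - ε₂) * Fintype.card T := by
    rw [ha₂]; field_simp
  have h7 := mul_nonneg hG.le h3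
  rw [Fintype.card_prod]
  push_cast
  have h8 : ∀ x y z : ℝ, (Fintype.card G : ℝ) * (x - a₂ * y - a₁ * z + Fintype.card G * (a₁ * a₂)) =
      Fintype.card G * x - (Fintype.card G * a₂) * y - (Fintype.card G * a₁) * z +
        (Fintype.card G * a₁) * (Fintype.card G * a₂) := fun x y z => by ring
  rw [h8, h5, h6] at h7
  linarith

open scoped Classical in
theorem low_count {S G : Type} [Fintype S] [Fintype G] {X : S → G} {ε : ℝ} (hX : Low X ε)
    (P : G → Prop) :
    (1 - ε) * ((univ.filter P).card : ℝ) * Fintype.card S ≤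
      Fintype.card G * ((univ.filter fun s => P (X s)).card : ℝ) := by
  have h : ((univ.filter fun s => P (X s)).card : ℝ) =
      ∑ g ∈ univ.filter P, ((univ.filter fun s => X s = g).card : ℝ) := by
    have h1 := Finset.card_eq_sum_card_fiberwise (f := X) (s := univ.filter fun s => P (X s))
      (t := univ.filter P) (fun s hs => by
        simp only [coe_filter, mem_univ, true_and, Set.mem_ofPred_eq] at hs ⊢
        exact hs)
    rw [h1]
    push_cast
    refine Finset.sum_congr rfl fun g hg => ?_
    rw [Finset.filter_filter]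
    congr 2
    refine Finset.filter_congr fun s _ => ?_
    constructor
    · exact fun h => h.2
    · intro h
      rw [h]
      exact ⟨(mem_filter.1 hg).2, rfl⟩
  rw [h, Finset.mul_sum]
  calc (1 - ε) * ((univ.filter P).card : ℝ) * Fintype.card S =
        ∑ _g ∈ univ.filter P, (1 - ε) * Fintype.card S := by
        rw [Finset.sum_const, nsmul_eq_mul]; ring
    _ ≤ _ := Finset.sum_le_sum fun g _ => hX g

open scoped Classical in
theorem low_upper {S G : Type} [Fintype S] [Fintype G] {X : S → G} {ε : ℝ} (hX : Low X ε)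
    (hε : 0 ≤ ε) (P : G → Prop) :
    Fintype.card G * ((univ.filter fun s => P (X s)).card : ℝ) ≤
      ((univ.filter P).card : ℝ) * Fintype.card S + ε * (Fintype.card G * Fintype.card S) := by
  have h : (1 - ε) * ((univ.filter fun g => ¬ P g).card : ℝ) * Fintype.card S ≤
      Fintype.card G * ((univ.filter fun s => ¬ P (X s)).card : ℝ) := by
    have := low_count hX (fun g => ¬ P g)
    convert this
  have h1 : ((univ.filter P).card : ℝ) + ((univ.filter fun g => ¬ P g).card : ℝ) =
      Fintype.card G := by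
    rw [← Finset.card_univ]
    exact_mod_cast Finset.card_filter_add_card_filter_not (s := (univ : Finset G)) P
  have h2 : ((univ.filter fun s => P (X s)).card : ℝ) +
      ((univ.filter fun s => ¬ P (X s)).card : ℝ) = Fintype.card S := by
    rw [← Finset.card_univ]
    exact_mod_cast Finset.card_filter_add_card_filter_not (s := (univ : Finset S)) (fun s => P (X s))
  have h3 : ((univ.filter fun g => ¬ P g).card : ℝ) =
      Fintype.card G - ((univ.filter P).card : ℝ) := by linarith
  have h4 : ((univ.filter fun s => ¬ P (X s)).card : ℝ) =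
      Fintype.card S - ((univ.filter fun s => P (X s)).card : ℝ) := by linarith
  rw [h3, h4] at h
  have h5 : (0 : ℝ) ≤ ((univ.filter P).card : ℝ) * Fintype.card S := by positivity
  nlinarith [mul_nonneg hε h5]

end Pool.Agent.R433.SL
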