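import Pool.Agent.R433.SL.Step

/-! The inductive step: from the small special linear group to the large one. -/

set_option autoImplicit false
set_option linter.unusedSectionVars false

namespace Pool.Agent.R433.SL

open Finset Matrix

variable {κ F T : Type} [Fintype κ] [DecidableEq κ] [Field F] [Fintype F] [DecidableEq F] [Fintype T]

theorem decomp (h : SpecialLinearGroup (Unit ⊕ κ) F) (h0 : h.1 (Sum.inl ()) (Sum.inl ()) = 1)
    (h1 : ∀ i, h.1 (Sum.inr i) (Sum.inl ()) = 0) :
    ∃ (w : κ → F) (B : SpecialLinearGroup κ F), h.1 = Bm B.1 * Um w := by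
  have e : h.1 = fromBlocks 1 (of fun _ j => h.1 (Sum.inl ()) (Sum.inr j)) 0 h.1.toBlocks₂₂ := by
    ext i j
    rcases i with i | i <;> rcases j with j | j
    · rw [fromBlocks_apply₁₁]
      rw [show i = () from rfl, show j = () from rfl, h0, Matrix.one_apply_eq]
    · rw [fromBlocks_apply₁₂]
      rfl
    · rw [fromBlocks_apply₂₁, show j = () from rfl, h1]
      rfl
    · rw [fromBlocks_apply₂₂]
      rfl
  have hd : h.1.toBlocks₂₂.det = 1 := by
    have h2 := h.2
    rw [e] at h2
    rw [det_fromBlocks_zero₂₁, det_one, one_mul] at h2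
    exact h2
  refine ⟨fun j => h.1 (Sum.inl ()) (Sum.inr j), ⟨h.1.toBlocks₂₂, hd⟩, ?_⟩
  rw [Bm_Um]
  exact e

/-- the first factor as an element of the group -/
def XG (s : (κ → F) × (κ → F) × (κ → F)) : SpecialLinearGroup (Unit ⊕ κ) F :=
  ⟨Xm s.1 s.2.1 s.2.2, det_Xm _ _ _⟩

/-- the second factor as an element of the group -/
def YG (w : κ → F) (B : SpecialLinearGroup κ F) : SpecialLinearGroup (Unit ⊕ κ) F :=
  ⟨Bm B.1 * Um w, by rw [det_mul, det_Bm, det_Um, B.2, one_mul]⟩

theorem YG_inj {w w' : κ → F} {B B' : SpecialLinearGroup κ F} (h : YG w B = YG w' B') :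
    w = w' ∧ B = B' := by
  have h1 : Bm B.1 * Um w = Bm B'.1 * Um w' := congrArg Subtype.val h
  rw [Bm_Um, Bm_Um, fromBlocks_inj] at h1
  refine ⟨?_, Subtype.ext h1.2.2.2⟩
  funext j
  exact congrFun (congrFun h1.2.1 ()) j

theorem YG_col (w : κ → F) (B : SpecialLinearGroup κ F) (i : Unit ⊕ κ) :
    (YG w B).1 i (Sum.inl ()) = if i = Sum.inl () then 1 else 0 := by
  change (Bm B.1 * Um w) i (Sum.inl ()) = _
  rw [Bm_Um]
  rcases i with i | i
  · rw [fromBlocks_apply₁₁]
    simp
  · rw [fromBlocks_apply₂₁]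
    simp

theorem mul_YG_col (X : SpecialLinearGroup (Unit ⊕ κ) F) (w : κ → F) (B : SpecialLinearGroup κ F)
    (i : Unit ⊕ κ) : (X * YG w B).1 i (Sum.inl ()) = X.1 i (Sum.inl ()) := by
  change (X.1 * (YG w B).1) i (Sum.inl ()) = _
  rw [Matrix.mul_apply]
  simp_rw [YG_col]
  simp

/-- two elements with the same first column -/
theorem same_col {X g : SpecialLinearGroup (Unit ⊕ κ) F}
    (h : ∀ i, X.1 i (Sum.inl ()) = g.1 i (Sum.inl ())) :
    ∃ (w : κ → F) (B : SpecialLinearGroup κ F), X * YG w B = g := by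
  have h1 : ∀ i, (X⁻¹ * g).1 i (Sum.inl ()) = if i = Sum.inl () then 1 else 0 := by
    intro i
    have e1 : (X⁻¹ * g).1 i (Sum.inl ()) = ((X⁻¹).1 * g.1) i (Sum.inl ()) := rfl
    have e2 : ((X⁻¹).1 * g.1) i (Sum.inl ()) = ((X⁻¹).1 * X.1) i (Sum.inl ()) := by
      rw [Matrix.mul_apply, Matrix.mul_apply]
      exact Finset.sum_congr rfl fun k _ => by rw [h k]
    have e3 : (X⁻¹).1 * X.1 = 1 := by
      have := congrArg Subtype.val (inv_mul_cancel X)
      exact this
    rw [e1, e2, e3, Matrix.one_apply]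
  obtain ⟨w, B, hwB⟩ := decomp (X⁻¹ * g) (by rw [h1]; simp) (fun i => by rw [h1]; simp)
  refine ⟨w, B, ?_⟩
  have : YG w B = X⁻¹ * g := Subtype.ext hwB.symm
  rw [this, mul_inv_cancel_left]

theorem col_ne_zero (g : SpecialLinearGroup (Unit ⊕ κ) F) : (fun i => g.1 i (Sum.inl ())) ≠ 0 := by
  intro h
  have h1 := g.2
  rw [Matrix.det_eq_zero_of_column_eq_zero (Sum.inl ()) (fun i => congrFun h i)] at h1
  exact zero_ne_one h1

variable [Nonempty κ]

theorem two_le_card : Fintype.card F ≤ Fintype.card (κ → F) := by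
  rw [Fintype.card_fun]
  calc Fintype.card F = Fintype.card F ^ 1 := (pow_one _).symm
    _ ≤ _ := Nat.pow_le_pow_right Fintype.card_pos Fintype.card_pos

theorem exists_col (v : Unit ⊕ κ → F) (hv : v ≠ 0) : ∃ s : (κ → F) × (κ → F) × (κ → F),
    ∀ i, (XG s).1 i (Sum.inl ()) = v i := by
  have h1 := col_card v hv
  have h2 : 2 ≤ Fintype.card F := Fintype.one_lt_card
  have h3 := two_le_card (κ := κ) (F := F)
  have h4 : 0 < (col v).card := by
    by_contra h
    have h5 : (col v).card = 0 := by omega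
    rw [h5, mul_zero] at h1
    have h6 : 0 < (Fintype.card (κ → F) - 1) * Fintype.card (κ → F) :=
      Nat.mul_pos (by omega) (by omega)
    omega
  obtain ⟨s, hs⟩ := Finset.card_pos.1 h4
  exact ⟨s, fun i => (mem_filter.1 hs).2 i⟩

/-- the order of the large group -/
theorem card_ge : (Fintype.card F * Fintype.card (κ → F) - 1) *
    (Fintype.card (κ → F) * Fintype.card (SpecialLinearGroup κ F)) ≤
      Fintype.card (SpecialLinearGroup (Unit ⊕ κ) F) := by
  classical
  choose s hs using exists_col (κ := κ) (F := F)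
  have h1 : Fintype.card {v : Unit ⊕ κ → F // v ≠ 0} =
      Fintype.card F * Fintype.card (κ → F) - 1 := by
    rw [Fintype.card_subtype_compl, Fintype.card_subtype_eq, Fintype.card_fun, Fintype.card_sum,
      Fintype.card_unit, Fintype.card_fun, pow_add, pow_one]
  rw [← h1, ← Fintype.card_prod, ← Fintype.card_prod]
  refine Fintype.card_le_of_injective
    (fun a : {v : Unit ⊕ κ → F // v ≠ 0} × (κ → F) × SpecialLinearGroup κ F =>
      XG (s a.1.1 a.1.2) * YG a.2.1 a.2.2) ?_
  rintro ⟨⟨v, hv⟩, w, B⟩ ⟨⟨v', hv'⟩, w', B'⟩ h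
  simp only at h
  have hvv : v = v' := by
    funext i
    have e1 := mul_YG_col (XG (s v hv)) w B i
    have e2 := mul_YG_col (XG (s v' hv')) w' B' i
    rw [hs v hv] at e1
    rw [hs v' hv'] at e2
    rw [← e1, ← e2, h]
  subst hvv
  have h2 := YG_inj (mul_left_cancel h)
  rw [h2.1, h2.2]

/-- the new map -/
def stepMap (A : T → SpecialLinearGroup κ F)
    (s : ((κ → F) × (κ → F) × (κ → F)) × ((κ → F) × T)) : SpecialLinearGroup (Unit ⊕ κ) F :=
  XG s.1 * YG s.2.1 (A s.2.2)

theorem step_low {A : T → SpecialLinearGroup κ F} {ε : ℝ} (hε : 0 ≤ ε) (hA : Low A ε) :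
    Low (stepMap A) (2 / Fintype.card F + ε) := by
  classical
  intro g
  have hp2 : 2 ≤ Fintype.card F := Fintype.one_lt_card
  have hP := two_le_card (κ := κ) (F := F)
  set p : ℝ := (Fintype.card F : ℝ) with hp
  set P : ℝ := (Fintype.card (κ → F) : ℝ) with hPdef
  have hp2' : (2 : ℝ) ≤ p := by rw [hp]; exact_mod_cast hp2
  have hpP : p ≤ P := by rw [hp, hPdef]; exact_mod_cast hP
  by_cases hbig : 1 ≤ 2 / p + ε
  · have h1 : (1 - (2 / p + ε)) * (Fintype.card
        (((κ → F) × (κ → F) × (κ → F)) × ((κ → F) × T)) : ℝ) ≤ 0 :=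
      mul_nonpos_of_nonpos_of_nonneg (by linarith) (by positivity)
    exact h1.trans (by positivity)
  · push Not at hbig
    have hε1 : 0 ≤ 1 - ε := by
      have : 0 ≤ 2 / p := by positivity
      linarith
    set v : Unit ⊕ κ → F := fun i => g.1 i (Sum.inl ()) with hv
    have hv0 : v ≠ 0 := col_ne_zero g
    set Gκ : ℝ := (Fintype.card (SpecialLinearGroup κ F) : ℝ) with hGκ
    have hGκ0 : 0 < Gκ := by rw [hGκ]; exact_mod_cast Fintype.card_pos
    -- number of solutions
    have h1 : (col v).card * ((1 - ε) * Fintype.card T / Gκ) ≤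
        ((univ.filter fun s => stepMap A s = g).card : ℝ) := by
      have e1 : (univ.filter fun s => stepMap A s = g).card =
          ∑ a : (κ → F) × (κ → F) × (κ → F),
            (univ.filter fun b : (κ → F) × T => stepMap A (a, b) = g).card := by
        rw [Finset.card_filter, ← Finset.univ_product_univ, Finset.sum_product]
        refine Finset.sum_congr rfl fun a _ => ?_
        rw [Finset.card_filter]
      have e2 : ∑ a ∈ col v, (univ.filter fun b : (κ → F) × T => stepMap A (a, b) = g).card ≤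
          ∑ a : (κ → F) × (κ → F) × (κ → F),
            (univ.filter fun b : (κ → F) × T => stepMap A (a, b) = g).card :=
        Finset.sum_le_sum_of_subset (Finset.subset_univ _)
      have e3 : ∀ a ∈ col v, (1 - ε) * Fintype.card T / Gκ ≤
          ((univ.filter fun b : (κ → F) × T => stepMap A (a, b) = g).card : ℝ) := by
        intro a ha
        obtain ⟨w, B, hwB⟩ := same_col (X := XG a) (g := g) (fun i => (mem_filter.1 ha).2 i)
        have h2 : (univ.filter fun t => A t = B).card ≤
            (univ.filter fun b : (κ → F) × T => stepMap A (a, b) = g).card := by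
          refine Finset.card_le_card_of_injOn (fun t => (w, t)) ?_ ?_
          · intro t ht
            rw [Finset.mem_coe, mem_filter] at ht ⊢
            refine ⟨mem_univ _, ?_⟩
            change XG a * YG w (A t) = g
            rw [ht.2, hwB]
          · intro t _ t' _ h
            exact (Prod.mk.inj h).2
        have h3 := hA B
        rw [div_le_iff₀ hGκ0]
        calc (1 - ε) * Fintype.card T ≤ Gκ * ((univ.filter fun t => A t = B).card : ℝ) := by
              convert h3
          _ ≤ Gκ * ((univ.filter fun b : (κ → F) × T => stepMap A (a, b) = g).card : ℝ) :=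
              mul_le_mul_of_nonneg_left (by exact_mod_cast h2) hGκ0.le
          _ = _ := mul_comm _ _
      calc (col v).card * ((1 - ε) * Fintype.card T / Gκ) =
            ∑ _a ∈ col v, (1 - ε) * Fintype.card T / Gκ := by
            rw [Finset.sum_const, nsmul_eq_mul]
        _ ≤ ∑ a ∈ col v, ((univ.filter fun b : (κ → F) × T => stepMap A (a, b) = g).card : ℝ) :=
            Finset.sum_le_sum e3
        _ ≤ _ := by
            rw [e1]
            exact_mod_cast e2
    have h2 : (P - 1) * P ≤ p * (col v).card := by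
      have := col_card v hv0
      have h3 : (((Fintype.card (κ → F) - 1 : ℕ) : ℝ)) = P - 1 := by
        rw [Nat.cast_sub (by omega), Nat.cast_one]
      rw [← h3, hPdef, hp]
      exact_mod_cast this
    have h3 : (p * P - 1) * (P * Gκ) ≤ Fintype.card (SpecialLinearGroup (Unit ⊕ κ) F) := by
      have := card_ge (κ := κ) (F := F)
      have h4 : (((Fintype.card F * Fintype.card (κ → F) - 1 : ℕ) : ℝ)) = p * P - 1 := by
        rw [Nat.cast_sub (Nat.mul_pos (by omega) (by omega)), Nat.cast_mul, Nat.cast_one]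
      rw [← h4, hPdef, hGκ]
      exact_mod_cast this
    have hT : (0 : ℝ) ≤ Fintype.card T := Nat.cast_nonneg _
    have hP0 : 0 < P := by linarith
    have hcard : (Fintype.card (((κ → F) × (κ → F) × (κ → F)) × ((κ → F) × T)) : ℝ) =
        P ^ 4 * Fintype.card T := by
      simp only [Fintype.card_prod]
      push_cast
      rw [hPdef]
      ring
    rw [hcard]
    set N : ℝ := ((univ.filter fun s => stepMap A s = g).card : ℝ) with hN
    set c : ℝ := ((col v).card : ℝ) with hc
    set t : ℝ := (Fintype.card T : ℝ) with ht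
    have hc0 : 0 ≤ c := by rw [hc]; positivity
    -- the inequality
    have h4 : (p * P - 1) * (P * Gκ) * (c * ((1 - ε) * t / Gκ)) ≤
        Fintype.card (SpecialLinearGroup (Unit ⊕ κ) F) * N := by
      refine mul_le_mul h3 h1 (by positivity) (by positivity)
    have h5 : (p * P - 1) * (P * Gκ) * (c * ((1 - ε) * t / Gκ)) =
        (p * P - 1) * P * c * ((1 - ε) * t) := by
      field_simp
    have h6 : (p * P - 1) * P * ((P - 1) * P) * ((1 - ε) * t) ≤
        p * ((p * P - 1) * P * c * ((1 - ε) * t)) := by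
      have h7 : 0 ≤ (p * P - 1) * P * ((1 - ε) * t) := by
        have : 0 ≤ p * P - 1 := by nlinarith
        positivity
      nlinarith [mul_le_mul_of_nonneg_left h2 h7]
    have h7 : p * ((1 - (2 / p + ε)) * P ^ 4) ≤ (p * P - 1) * P * ((P - 1) * P) * (1 - ε) := by
      have e1 : p * ((1 - (2 / p + ε)) * P ^ 4) = (p * (1 - ε) - 2) * P ^ 4 := by
        field_simp
        ring
      rw [e1]
      have e2 : (p * P - 1) * P * ((P - 1) * P) * (1 - ε) =
          ((p * P ^ 2 - (p + 1) * P + 1) * (1 - ε)) * P ^ 2 := by ring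
      have e3 : (p * (1 - ε) - 2) * P ^ 4 = ((p * (1 - ε) - 2) * P ^ 2) * P ^ 2 := by ring
      rw [e2, e3]
      apply mul_le_mul_of_nonneg_right _ (by positivity)
      have e4 : (p + 1) * P * (1 - ε) ≤ 2 * P ^ 2 := by
        have e5 : (p + 1) * P * (1 - ε) ≤ (p + 1) * P := by
          have : 0 ≤ (p + 1) * P := by positivity
          nlinarith
        nlinarith
      nlinarith
    have h8 : p * ((1 - (2 / p + ε)) * (P ^ 4 * t)) ≤
        p * (Fintype.card (SpecialLinearGroup (Unit ⊕ κ) F) * N) := by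
      calc p * ((1 - (2 / p + ε)) * (P ^ 4 * t)) = p * ((1 - (2 / p + ε)) * P ^ 4) * t := by ring
        _ ≤ (p * P - 1) * P * ((P - 1) * P) * (1 - ε) * t := mul_le_mul_of_nonneg_right h7 hT
        _ = (p * P - 1) * P * ((P - 1) * P) * ((1 - ε) * t) := by ring
        _ ≤ p * ((p * P - 1) * P * c * ((1 - ε) * t)) := h6
        _ ≤ _ := by
          rw [← h5]
          exact mul_le_mul_of_nonneg_left h4 (by linarith)
    have h9 := le_of_mul_le_mul_left h8 (by linarith)
    refine h9.trans (le_of_eq ?_)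
    rw [hN]
    congr!

end Pool.Agent.R433.SL
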