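import Pool.Agent.R433.SL.Low

/-! The inductive step for the parametrisation of the special linear group. -/

set_option autoImplicit false

namespace Pool.Agent.R433.SL

open Finset Matrix

section blocks

variable {κ R : Type} [Fintype κ] [DecidableEq κ] [CommRing R]

/-- adds multiples of the first row to the other rows -/
def Lm (c : κ → R) : Matrix (Unit ⊕ κ) (Unit ⊕ κ) R := fromBlocks 1 0 (of fun i _ => c i) 1

/-- adds multiples of the other rows to the first row -/
def Um (u : κ → R) : Matrix (Unit ⊕ κ) (Unit ⊕ κ) R := fromBlocks 1 (of fun _ j => u j) 0 1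

/-- a block -/
def Bm (B : Matrix κ κ R) : Matrix (Unit ⊕ κ) (Unit ⊕ κ) R := fromBlocks 1 0 0 B

/-- the first factor -/
def Xm (c u c' : κ → R) : Matrix (Unit ⊕ κ) (Unit ⊕ κ) R := Lm c * Um u * Lm c'

theorem det_Lm (c : κ → R) : (Lm c).det = 1 := by
  simp [Lm]

theorem det_Um (u : κ → R) : (Um u).det = 1 := by
  simp [Um]

theorem det_Bm (B : Matrix κ κ R) : (Bm B).det = B.det := by
  simp [Bm]

theorem det_Xm (c u c' : κ → R) : (Xm c u c').det = 1 := by
  rw [Xm, det_mul, det_mul, det_Lm, det_Um, det_Lm, one_mul, one_mul]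

theorem Bm_Um (B : Matrix κ κ R) (w : κ → R) :
    Bm B * Um w = fromBlocks 1 (of fun _ j => w j) 0 B := by
  rw [Bm, Um, fromBlocks_multiply]
  simp

theorem Xm_inl (c u c' : κ → R) :
    Xm c u c' (Sum.inl ()) (Sum.inl ()) = 1 + ∑ j, u j * c' j := by
  rw [Xm, Lm, Um, Lm, fromBlocks_multiply, fromBlocks_multiply]
  simp [Matrix.mul_apply]

theorem Xm_inr (c u c' : κ → R) (i : κ) :
    Xm c u c' (Sum.inr i) (Sum.inl ()) = c i * (1 + ∑ j, u j * c' j) + c' i := by
  rw [Xm, Lm, Um, Lm, fromBlocks_multiply, fromBlocks_multiply]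
  simp [Matrix.mul_apply, Matrix.add_apply, Finset.sum_add_distrib, add_mul]
  simp only [mul_add, mul_one, Finset.mul_sum, Matrix.one_apply, ite_mul, one_mul, zero_mul,
    Finset.sum_ite_eq, Finset.mem_univ, if_true]
  ring_nf

end blocks

section count

variable {κ F : Type} [Fintype κ] [DecidableEq κ] [Field F] [Fintype F] [DecidableEq F]

theorem hyper (a : κ → F) (ha : a ≠ 0) (b : F) :
    Fintype.card F * (univ.filter fun u : κ → F => ∑ j, u j * a j = b).card =
      Fintype.card (κ → F) := by
  let φ : (κ → F) →+ F :=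
    { toFun := fun u => ∑ j, u j * a j
      map_zero' := by simp
      map_add' := fun x y => by simp [add_mul, Finset.sum_add_distrib] }
  have hs : Function.Surjective φ := by
    intro y
    obtain ⟨j, hj⟩ : ∃ j, a j ≠ 0 := by
      by_contra h
      push Not at h
      exact ha (funext h)
    refine ⟨Pi.single j (y / a j), ?_⟩
    change ∑ i, (Pi.single j (y / a j) : κ → F) i * a i = y
    rw [Finset.sum_eq_single j (fun i _ hi => by rw [Pi.single_eq_of_ne hi, zero_mul])
      (fun h => absurd (mem_univ j) h), Pi.single_eq_same, div_mul_cancel₀ _ hj]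
  have h1 : Fintype.card (κ → F) = ∑ y : F, (univ.filter fun u : κ → F => φ u = y).card := by
    rw [← Finset.card_univ]
    exact Finset.card_eq_sum_card_fiberwise (f := φ) (s := (univ : Finset (κ → F)))
      (t := (univ : Finset F)) (fun _ _ => mem_univ _)
  rw [h1]
  have h2 : ∀ y ∈ (univ : Finset F), (univ.filter fun u : κ → F => φ u = y).card =
      (univ.filter fun u : κ → F => ∑ j, u j * a j = b).card := by
    intro y _
    exact AddMonoidHom.card_fiber_eq_of_mem_range φ (hs y) (hs b)
  rw [Finset.sum_congr rfl h2, Finset.sum_const, Finset.card_univ, smul_eq_mul]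

/-- the triples giving a first column -/
def col (v : Unit ⊕ κ → F) : Finset ((κ → F) × (κ → F) × (κ → F)) :=
  univ.filter fun s => ∀ i, Xm s.1 s.2.1 s.2.2 i (Sum.inl ()) = v i

theorem col_card (v : Unit ⊕ κ → F) (hv : v ≠ 0) :
    (Fintype.card (κ → F) - 1) * Fintype.card (κ → F) ≤ Fintype.card F * (col v).card := by
  by_cases h0 : v (Sum.inl ()) = 0
  · -- the first coordinate vanishes
    set r : κ → F := fun i => v (Sum.inr i) with hr
    have hr0 : r ≠ 0 := by
      intro h
      apply hv
      funext i
      rcases i with i | i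
      · exact h0
      · exact congrFun h i
    have h1 : ((univ : Finset (κ → F)) ×ˢ (univ.filter fun u : κ → F => ∑ j, u j * r j = -1)).card ≤
        (col v).card := by
      refine Finset.card_le_card_of_injOn (fun s : (κ → F) × (κ → F) => (s.1, s.2, r)) ?_ ?_
      · intro s hs
        rw [Finset.mem_coe, Finset.mem_product, Finset.mem_filter] at hs
        rw [Finset.mem_coe, col, Finset.mem_filter]
        refine ⟨mem_univ _, ?_⟩
        intro i
        rcases i with i | i
        · change Xm s.1 s.2 r (Sum.inl ()) (Sum.inl ()) = v (Sum.inl i)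
          rw [Xm_inl, hs.2.2]
          rw [show i = () from rfl, h0]
          ring
        · change Xm s.1 s.2 r (Sum.inr i) (Sum.inl ()) = v (Sum.inr i)
          rw [Xm_inr, hs.2.2, hr]
          ring
      · intro s _ t _ h
        simp only [Prod.mk.injEq] at h
        exact Prod.ext h.1 h.2.1
    rw [Finset.card_product, Finset.card_univ] at h1
    have h2 := hyper r hr0 (-1)
    calc (Fintype.card (κ → F) - 1) * Fintype.card (κ → F) ≤
          Fintype.card (κ → F) * Fintype.card (κ → F) := Nat.mul_le_mul_right _ (Nat.sub_le _ _)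
      _ = Fintype.card (κ → F) * (Fintype.card F *
          (univ.filter fun u : κ → F => ∑ j, u j * r j = -1).card) := by rw [h2]
      _ = Fintype.card F * (Fintype.card (κ → F) *
          (univ.filter fun u : κ → F => ∑ j, u j * r j = -1).card) := by ring
      _ ≤ _ := Nat.mul_le_mul_left _ h1
  · set a : F := v (Sum.inl ()) with ha
    set r : κ → F := fun i => v (Sum.inr i) with hr
    have h1 : (((univ : Finset (κ → F)).erase 0).sigma
        (fun c' => univ.filter fun u : κ → F => ∑ j, u j * c' j = a - 1)).card ≤ (col v).card := by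
      refine Finset.card_le_card_of_injOn
        (fun s : (_ : κ → F) × (κ → F) => (fun i => (r i - s.1 i) / a, s.2, s.1)) ?_ ?_
      · intro s hs
        rw [Finset.mem_coe, Finset.mem_sigma, Finset.mem_filter] at hs
        rw [Finset.mem_coe, col, Finset.mem_filter]
        refine ⟨mem_univ _, ?_⟩
        intro i
        rcases i with i | i
        · change Xm _ s.2 s.1 (Sum.inl ()) (Sum.inl ()) = v (Sum.inl i)
          rw [Xm_inl, hs.2.2]
          rw [show i = () from rfl, ← ha]
          ring
        · change Xm _ s.2 s.1 (Sum.inr i) (Sum.inl ()) = v (Sum.inr i)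
          rw [Xm_inr, hs.2.2, add_sub_cancel, div_mul_cancel₀ _ h0, hr]
          ring
      · intro s _ t _ h
        simp only [Prod.mk.injEq] at h
        obtain ⟨s1, s2⟩ := s
        obtain ⟨t1, t2⟩ := t
        obtain ⟨-, h2, h3⟩ := h
        simp only at h2 h3
        subst h2 h3
        rfl
    rw [Finset.card_sigma] at h1
    have h2 : ∀ c' ∈ (univ : Finset (κ → F)).erase 0,
        Fintype.card F * (univ.filter fun u : κ → F => ∑ j, u j * c' j = a - 1).card =
          Fintype.card (κ → F) := fun c' hc' => hyper c' (Finset.mem_erase.1 hc').1 _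
    calc (Fintype.card (κ → F) - 1) * Fintype.card (κ → F) =
          ∑ c' ∈ (univ : Finset (κ → F)).erase 0, Fintype.card (κ → F) := by
          rw [Finset.sum_const, Finset.card_erase_of_mem (mem_univ _), Finset.card_univ, smul_eq_mul]
      _ = ∑ c' ∈ (univ : Finset (κ → F)).erase 0, Fintype.card F *
          (univ.filter fun u : κ → F => ∑ j, u j * c' j = a - 1).card :=
          (Finset.sum_congr rfl h2).symm
      _ = Fintype.card F * ∑ c' ∈ (univ : Finset (κ → F)).erase 0,
          (univ.filter fun u : κ → F => ∑ j, u j * c' j = a - 1).card := by rw [Finset.mul_sum]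
      _ ≤ _ := Nat.mul_le_mul_left _ h1

end count

end Pool.Agent.R433.SL
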